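import Pool.Agent.Helper77.KBL.Orbit
import Pool.Agent.Helper23.KB.St

/-!
# `StG`: the charges at the vertices
-/

namespace Pool.Agent.Helper77.KBL

open Pool.Agent.Helper23.KB Finset

variable {n : ℕ} (K : KM n)

/-! ### a line has at least two vertices -/

theorem exists_max_dir (i : Fin n) (d : Bool) :
    ∃ h : K.H, K.ln h = i ∧ K.dr h = d ∧ K.rv h = h ∧
      ∀ h', K.ln h' = i → K.dr h' = d → (if d then K.ps h' ≤ K.ps h else K.ps h ≤ K.ps h') := by
  classical
  obtain ⟨h0, hh0, -⟩ := K.ray i d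
  set S := univ.filter (fun h : K.H => K.ln h = i ∧ K.dr h = d) with hS
  have hne : S.Nonempty := ⟨h0, by rw [hS]; simp [hh0.1, hh0.2.1]⟩
  cases d
  · obtain ⟨h, hh, hmin⟩ := S.exists_min_image K.ps hne
    rw [hS] at hh
    simp only [mem_filter, mem_univ, true_and] at hh
    have hall : ∀ h', K.ln h' = i → K.dr h' = false → K.ps h ≤ K.ps h' := by
      intro h' h1 h2
      exact hmin h' (by rw [hS]; simp [h1, h2])
    refine ⟨h, hh.1, hh.2, ?_, by simpa using hall⟩
    by_contra hr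
    have h1 := K.ps_rv h hr
    rw [hh.2] at h1
    have h2 := hall (K.op (K.rv h)) (by rw [K.ln_op', K.ln_rv]; exact hh.1)
      (by rw [K.dr_op', K.dr_rv h hr, hh.2]; rfl)
    rw [K.ps_op, h1] at h2
    simp at h2
  · obtain ⟨h, hh, hmax⟩ := S.exists_max_image K.ps hne
    rw [hS] at hh
    simp only [mem_filter, mem_univ, true_and] at hh
    have hall : ∀ h', K.ln h' = i → K.dr h' = true → K.ps h' ≤ K.ps h := by
      intro h' h1 h2
      exact hmax h' (by rw [hS]; simp [h1, h2])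
    refine ⟨h, hh.1, hh.2, ?_, by simpa using hall⟩
    by_contra hr
    have h1 := K.ps_rv h hr
    rw [hh.2] at h1
    have h2 := hall (K.op (K.rv h)) (by rw [K.ln_op', K.ln_rv]; exact hh.1)
      (by rw [K.dr_op', K.dr_rv h hr, hh.2]; rfl)
    rw [K.ps_op, h1] at h2
    simp at h2

/-- two opposite rays: the line has only one vertex -/
theorem two_rays {h : K.H} (h1 : K.rv h = h) (h2 : K.rv (K.op h) = K.op h) :
    (K.m h : ℤ) - 1 = n - 1 := by
  classical
  have hone : ∀ h', K.ln h' = K.ln h → K.dr h' = K.dr h → h' = h := by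
    intro h' e1 e2
    obtain ⟨a, a1, a2, a3, a4⟩ := exists_max_dir K (K.ln h) (K.dr h)
    obtain ⟨b, b1, b2, b3, b4⟩ := exists_max_dir K (K.ln h) (!(K.dr h))
    obtain ⟨c, -, hc⟩ := K.ray (K.ln h) (K.dr h)
    obtain ⟨c', -, hc'⟩ := K.ray (K.ln h) (!(K.dr h))
    have ea : a = h := (hc a ⟨a1, a2, a3⟩).trans (hc h ⟨rfl, rfl, h1⟩).symm
    have eb : b = K.op h := (hc' b ⟨b1, b2, b3⟩).trans
      (hc' (K.op h) ⟨K.ln_op' h, K.dr_op' h, h2⟩).symm
    have f1 := a4 h' e1 e2
    have f2 := b4 (K.op h') (by rw [K.ln_op', e1]) (by rw [K.dr_op', e2])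
    rw [ea] at f1
    rw [eb, K.ps_op, K.ps_op] at f2
    apply K.inj h' h e1 _ e2
    cases hd : K.dr h
    · rw [hd] at f1 f2
      simp at f1 f2
      omega
    · rw [hd] at f1 f2
      simp at f1 f2
      omega
  have hs := K.line_sum (K.ln h) (K.dr h)
  rw [Finset.sum_eq_single_of_mem h] at hs
  · exact hs
  · simp
  · intro b hb hne
    simp only [mem_filter, mem_univ, true_and] at hb
    exact absurd (hone b hb.1 hb.2) hne

theorem not_two_rays (hn : 4 ≤ n) {h : K.H} (hm : K.m h = 2) :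
    ¬ (K.rv h = h ∧ K.rv (K.op h) = K.op h) := by
  rintro ⟨h1, h2⟩
  have := two_rays K h1 h2
  rw [hm] at this
  push_cast at this
  omega


/-! ### multiplicity two -/

/-- is it a ray -/
def ry (h : K.H) : Bool := decide (K.rv h = h)

/-- the charge at a simple vertex as a function of the four sectors and the four rays -/
def G2 (t0 t1 t2 t3 p0 p1 p2 p3 : Bool) : ℤ :=
  let cost := ((t0 == t2) && (t1 == t3) && (t0 != t1)) ||
    ((t0 && p2 && p3) || (t1 && p3 && p0) || (t2 && p0 && p1) || (t3 && p1 && p2))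
  let tw := ((t0 && p2 && p3) || (t1 && p3 && p0) || (t2 && p0 && p1) || (t3 && p1 && p2))
  3 - 3 * (t0.toNat : ℤ) - 3 * (t3.toNat : ℤ) - 4 * (p0.toNat : ℤ)
    - (((t0 != t3) && !cost).toNat : ℤ) + ((p0 && tw).toNat : ℤ)
    - 2 * ((t0 != t3).toNat : ℤ) + 2 * ((t3.toNat : ℤ) + (t0.toNat : ℤ))

/-- the target at a simple vertex -/
def T2 (t0 t1 t2 t3 p2 : Bool) : ℤ :=
  2 * (((t0 && t3) && !p2 && !(t2 && t1) && !(t1 && t0) && !(t3 && t2)).toNat : ℤ)
    + (((t0 && t3) && (t1 && t0) && (t2 && t1) && (t3 && t2)).toNat : ℤ)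
    - 2 * (((t0 && t3) && p2).toNat : ℤ)

/-- the constraints -/
def C2 (t0 t1 t2 t3 p0 p1 p2 p3 : Bool) : Bool :=
  !(p0 && t0) && !(p0 && t3) && !(p1 && t1) && !(p1 && t0) && !(p2 && t2) && !(p2 && t1) &&
  !(p3 && t3) && !(p3 && t2) && !(p0 && p2) && !(p1 && p3)

theorem table2 : ∀ t0 t1 t2 t3 p0 p1 p2 p3 : Bool, C2 t0 t1 t2 t3 p0 p1 p2 p3 = true →
    T2 t0 t1 t2 t3 p2 + T2 t1 t2 t3 t0 p3 + T2 t2 t3 t0 t1 p0 + T2 t3 t0 t1 t2 p1 ≤
    G2 t0 t1 t2 t3 p0 p1 p2 p3 + G2 t1 t2 t3 t0 p1 p2 p3 p0 + G2 t2 t3 t0 t1 p2 p3 p0 p1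
      + G2 t3 t0 t1 t2 p3 p0 p1 p2 := by
  decide

variable {K}

theorem nx3' {h : K.H} (hm : K.m h = 2) : K.nx (K.nx (K.nx h)) = K.nx.symm h := by
  have h1 : K.op h = K.nx (K.nx h) := (K.r2 (o := true) hm).symm
  have h2 := K.op_op h
  have h3 : K.op (K.op h) = K.nx (K.nx (K.op h)) :=
    (K.r2 (o := true) (by rw [K.m_op]; exact hm)).symm
  rw [Equiv.eq_symm_apply, ← h1, ← h3, h2]

theorem symm_symm' {h : K.H} (hm : K.m h = 2) : K.nx.symm (K.nx.symm h) = K.nx (K.nx h) := by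
  rw [← nx3' hm, Equiv.symm_apply_apply]

theorem op2' {h : K.H} (hm : K.m h = 2) : K.op h = K.nx (K.nx h) := (K.r2 (o := true) hm).symm

theorem TW_table {h : K.H} (hm : K.m h = 2) : K.TW h =
    ((K.tri h && ry K (K.nx (K.nx h)) && ry K (K.nx.symm h)) ||
     (K.tri (K.nx h) && ry K (K.nx.symm h) && ry K h) ||
     (K.tri (K.nx (K.nx h)) && ry K h && ry K (K.nx h)) ||
     (K.tri (K.nx.symm h) && ry K (K.nx h) && ry K (K.nx (K.nx h)))) := by
  have hm1 : K.m (K.nx h) = 2 := by rw [K.m_nx]; exact hm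
  have hm2 : K.m (K.nx (K.nx h)) = 2 := by rw [K.m_nx]; exact hm1
  have hm3 : K.m (K.nx.symm h) = 2 := by rw [K.m_symm]; exact hm
  have e4 : K.nx (K.nx.symm h) = h := Equiv.apply_symm_apply _ _
  unfold KM.TW KM.wg ry
  rw [op2' hm, op2' hm1, op2' hm2, op2' hm3, nx3' hm, e4]
  simp [hm]

theorem TO_table {h : K.H} (hm : K.m h = 2) : K.TO h =
    ((K.tri h == K.tri (K.nx (K.nx h))) && (K.tri (K.nx h) == K.tri (K.nx.symm h)) &&
      (K.tri h != K.tri (K.nx h))) := by
  unfold KM.TO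
  rw [op2' hm]
  simp [hm]

theorem nsl_of_lt {h : K.H} (hm : K.m h < 4) : K.nsl h = 0 := by
  unfold KM.nsl KM.slt
  have : ¬ (4 ≤ K.m h) := by omega
  simp [this]

theorem gg_table {h : K.H} (hm : K.m h = 2) : K.gg h =
    G2 (K.tri h) (K.tri (K.nx h)) (K.tri (K.nx (K.nx h))) (K.tri (K.nx.symm h))
      (ry K h) (ry K (K.nx h)) (ry K (K.nx (K.nx h))) (ry K (K.nx.symm h)) := by
  have h1 : K.Sg h = (K.tri h != K.tri (K.nx.symm h)) := rfl
  unfold KM.gg G2 KM.wt KM.PE KM.wr KM.cost KM.stb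
  rw [TW_table hm, TO_table hm, nsl_of_lt (by omega), h1]
  simp only [hm, KM.tr_false, KM.tr_true, Bool.not_true, Bool.not_false, decide_true, Bool.true_and]
  unfold ry
  push_cast
  ring

def tgt (K : KM n) (h : K.H) : ℤ := 2 * ((K.s2 h).toNat : ℤ) + ((K.s4 h).toNat : ℤ) + 2 * ((K.ur h).toNat : ℤ)
    + ((K.sm h).toNat : ℤ) - 2 * ((K.e2 h).toNat : ℤ) - ((K.vf h).toNat : ℤ)

theorem tgt_table {h : K.H} (hm : K.m h = 2) : tgt K h =
    T2 (K.tri h) (K.tri (K.nx h)) (K.tri (K.nx (K.nx h))) (K.tri (K.nx.symm h))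
      (ry K (K.nx (K.nx h))) := by
  unfold tgt T2 KM.s2 KM.s4 KM.ur KM.sm KM.e2 KM.vf KM.Dd ry
  have e5 : K.nx.symm (K.nx (K.nx h)) = K.nx h := Equiv.symm_apply_apply _ _
  have e6 : K.nx.symm (K.nx h) = h := Equiv.symm_apply_apply _ _
  rw [op2' hm]
  simp only [KM.tr_true, KM.tr_false, symm_symm' hm, e5, e6, hm]
  simp

theorem C2_ok (hn : 4 ≤ n) {h : K.H} (hm : K.m h = 2) :
    C2 (K.tri h) (K.tri (K.nx h)) (K.tri (K.nx (K.nx h))) (K.tri (K.nx.symm h))
      (ry K h) (ry K (K.nx h)) (ry K (K.nx (K.nx h))) (ry K (K.nx.symm h)) = true := by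
  have key : ∀ g : K.H, ry K g = true → K.tri g = false ∧ K.tri (K.nx.symm g) = false := by
    intro g hg
    have hg' : K.rv g = g := by simpa [ry] using hg
    exact ⟨K.tr_of_ray (o := true) hg', K.tr_of_ray (o := false) hg'⟩
  have opp : ∀ g : K.H, K.m g = 2 → ry K g = true → ry K (K.nx (K.nx g)) = true → False := by
    intro g hg h1 h2
    have h1' : K.rv g = g := by simpa [ry] using h1
    have h2' : K.rv (K.nx (K.nx g)) = K.nx (K.nx g) := by simpa [ry] using h2
    exact not_two_rays K hn hg ⟨h1', by rw [op2' hg]; exact h2'⟩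
  have k0 := key h
  have k1 := key (K.nx h)
  have k2 := key (K.nx (K.nx h))
  have k3 := key (K.nx.symm h)
  have e5 : K.nx.symm (K.nx (K.nx h)) = K.nx h := Equiv.symm_apply_apply _ _
  have e6 : K.nx.symm (K.nx h) = h := Equiv.symm_apply_apply _ _
  rw [e6] at k1
  rw [e5] at k2
  rw [symm_symm' hm] at k3
  have o1 := opp h hm
  have o2 := opp (K.nx h) (by rw [K.m_nx]; exact hm)
  rw [nx3' hm] at o2
  revert k0 k1 k2 k3 o1 o2
  generalize K.tri h = t0
  generalize K.tri (K.nx h) = t1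
  generalize K.tri (K.nx (K.nx h)) = t2
  generalize K.tri (K.nx.symm h) = t3
  generalize ry K h = p0
  generalize ry K (K.nx h) = p1
  generalize ry K (K.nx (K.nx h)) = p2
  generalize ry K (K.nx.symm h) = p3
  intro k0 k1 k2 k3 o1 o2
  unfold C2
  cases p0 <;> cases p1 <;> cases p2 <;> cases p3 <;> simp_all

theorem m2_le (hn : 4 ≤ n) : ∑ x with K.m x = 2, tgt K x ≤ ∑ x with K.m x = 2, K.gg x := by
  apply orbit_le K 2 (by norm_num)
  intro h hm
  have hm1 : K.m (K.nx h) = 2 := by rw [K.m_nx]; exact hm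
  have hm2 : K.m (K.nx (K.nx h)) = 2 := by rw [K.m_nx]; exact hm1
  have hm3 : K.m (K.nx.symm h) = 2 := by rw [K.m_symm]; exact hm
  have e4 : K.nx (K.nx.symm h) = h := Equiv.apply_symm_apply _ _
  have e5 : K.nx.symm (K.nx (K.nx h)) = K.nx h := Equiv.symm_apply_apply _ _
  have e6 : K.nx.symm (K.nx h) = h := Equiv.symm_apply_apply _ _
  have s1 : ∀ f : K.H → ℤ, ∑ k ∈ range (2 * 2), f (K.nx^[k] h) =
      f h + f (K.nx h) + f (K.nx (K.nx h)) + f (K.nx.symm h) := by
    intro f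
    rw [← nx3' hm]
    simp [Finset.sum_range_succ]
  rw [s1, s1, gg_table hm, gg_table hm1, gg_table hm2, gg_table hm3, tgt_table hm, tgt_table hm1,
    tgt_table hm2, tgt_table hm3]
  have hC := C2_ok (K := K) hn hm
  rw [nx3' hm, e4, e5, e6, symm_symm' hm]
  have := table2 _ _ _ _ _ _ _ _ hC
  linarith

/-! ### other multiplicities -/

theorem TW_ne {h : K.H} (hm : K.m h ≠ 2) : K.TW h = false := by
  unfold KM.TW; simp [hm]

theorem TO_ne {h : K.H} (hm : K.m h ≠ 2) : K.TO h = false := by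
  unfold KM.TO; simp [hm]

/-- the charge at a vertex which is not simple -/
theorem gg_ne {h : K.H} (hm : K.m h ≠ 2) : K.gg h = K.wt h - 4 * ((ry K h).toNat : ℤ)
    - 3 * ((K.Sg h).toNat : ℤ) - 2 * (K.nsl h : ℤ) := by
  unfold KM.gg KM.PE KM.wr KM.cost KM.stb
  rw [TW_ne hm, TO_ne hm]
  simp only [hm, decide_false, Bool.or_false, Bool.not_false, Bool.and_true, Bool.and_false,
    Bool.false_and, Bool.toNat_false]
  unfold ry
  push_cast
  ring

theorem tgt_ne {h : K.H} (hm : K.m h ≠ 2) : tgt K h = 2 * ((K.ur h).toNat : ℤ)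
    + ((K.sm h).toNat : ℤ) - ((K.vf h).toNat : ℤ) := by
  unfold tgt KM.s2 KM.s4 KM.e2
  simp only [hm, decide_false, Bool.false_and, Bool.toNat_false]
  push_cast
  ring

theorem ry_key {g : K.H} (hg : ry K g = true) : K.tri g = false ∧ K.tri (K.nx.symm g) = false := by
  have hg' : K.rv g = g := by simpa [ry] using hg
  exact ⟨K.tr_of_ray (o := true) hg', K.tr_of_ray (o := false) hg'⟩

theorem m3_le {h : K.H} (hm : K.m h = 3) : tgt K h ≤ K.gg h := by
  rw [gg_ne (by omega), tgt_ne (by omega), nsl_of_lt (by omega)]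
  unfold KM.ur KM.sm KM.vf KM.wt KM.Sg KM.Dd
  simp only [hm, KM.tr_true, KM.tr_false]
  have := ry_key (K := K) (g := h)
  cases h1 : K.tri h <;> cases h2 : K.tri (K.nx.symm h) <;> cases h3 : ry K h <;> simp_all

theorem m5_le {h : K.H} (hm : 5 ≤ K.m h) : tgt K h ≤ K.gg h := by
  rw [gg_ne (by omega), tgt_ne (by omega)]
  have h4 : 4 ≤ K.m h := by omega
  have h3 : K.m h ≠ 3 := by omega
  have h44 : K.m h ≠ 4 := by omega
  have hmz : (5 : ℤ) ≤ (K.m h : ℤ) := by exact_mod_cast hm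
  unfold KM.ur KM.sm KM.vf KM.wt KM.Sg KM.nsl KM.slt
  simp only [h4, h3, h44, decide_true, decide_false, Bool.true_and, Bool.false_and,
    Bool.toNat_false, KM.tr_true, KM.tr_false, Bool.not_true, Bool.not_false]
  have hd : K.Dd h = (K.tri h && K.tri (K.nx.symm h)) := rfl
  rw [hd]
  have := ry_key (K := K) (g := h)
  have b1 : ∀ b : Bool, ((b.toNat : ℕ) : ℤ) ≤ 1 := by decide
  have c1 := b1 (K.Dd (K.r false h))
  have c2 := b1 (K.Dd (K.r true h))
  cases h1 : K.tri h <;> cases h2 : K.tri (K.nx.symm h) <;> cases h3 : ry K h <;> simp_all <;>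
    omega

/-- lower bound of the charge at a vertex of multiplicity four -/
def L4 (a b c d : Bool) : ℤ :=
  if b && c then 3 - 2 * (((b && a).toNat : ℤ) + ((d && c).toNat : ℤ))
  else if b != c then 3 else 5

theorem table4 : ∀ t0 t1 t2 t3 t4 t5 t6 t7 : Bool,
    ((t0 != t7).toNat : ℤ) + ((t1 != t0).toNat : ℤ) + ((t2 != t1).toNat : ℤ) + ((t3 != t2).toNat : ℤ) +
    ((t4 != t3).toNat : ℤ) + ((t5 != t4).toNat : ℤ) + ((t6 != t5).toNat : ℤ) + ((t7 != t6).toNat : ℤ)
      - 8 * ((t0 && t1 && t2 && t3 && t4 && t5 && t6 && t7).toNat : ℤ) ≤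
    L4 t6 t7 t0 t1 + L4 t7 t0 t1 t2 + L4 t0 t1 t2 t3 + L4 t1 t2 t3 t4 + L4 t2 t3 t4 t5 +
      L4 t3 t4 t5 t6 + L4 t4 t5 t6 t7 + L4 t5 t6 t7 t0 := by
  decide

theorem L4_le {h : K.H} (hm : K.m h = 4) :
    L4 (K.tri (K.nx.symm (K.nx.symm h))) (K.tri (K.nx.symm h)) (K.tri h) (K.tri (K.nx h)) ≤
      K.gg h := by
  rw [gg_ne (by omega)]
  unfold KM.wt KM.Sg KM.nsl KM.slt L4
  have e6 : K.nx.symm (K.nx h) = h := Equiv.symm_apply_apply _ _
  have hd : K.Dd h = (K.tri h && K.tri (K.nx.symm h)) := rfl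
  have hd1 : K.Dd (K.r false h) = (K.tri (K.nx.symm h) && K.tri (K.nx.symm (K.nx.symm h))) := rfl
  have hd2 : K.Dd (K.r true h) = (K.tri (K.nx h) && K.tri h) := by
    unfold KM.Dd
    simp only [KM.tr_true, KM.tr_false, KM.r_true, e6]
  simp only [hm, KM.tr_true, KM.tr_false, Bool.not_true, Bool.not_false]
  rw [hd, hd1, hd2]
  have := ry_key (K := K) (g := h)
  cases h1 : K.tri h <;> cases h2 : K.tri (K.nx.symm h) <;> cases h3 : ry K h <;> simp_all

theorem iter_add (a b : ℕ) (h : K.H) : K.nx^[a] (K.nx^[b] h) = K.nx^[a + b] h := by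
  rw [Function.iterate_add_apply]

theorem symm_iter (a : ℕ) (h : K.H) : K.nx.symm (K.nx^[a + 1] h) = K.nx^[a] h := by
  rw [Function.iterate_succ_apply', Equiv.symm_apply_apply]

theorem m4_le : ∑ x with K.m x = 4, tgt K x ≤ ∑ x with K.m x = 4, K.gg x := by
  apply orbit_le K 4 (by norm_num)
  intro h hm
  have hp : K.nx^[8] h = h := by have := K.per h; rw [hm] at this; exact this
  have hmk : ∀ k, K.m (K.nx^[k] h) = 4 := fun k => by rw [K.m_iter]; exact hm
  -- the sectors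
  set t : ℕ → Bool := fun k => K.tri (K.nx^[k] h) with ht
  have hper : ∀ k, t (k + 8) = t k := by
    intro k
    simp only [ht]
    rw [Function.iterate_add_apply, hp]
  have hrot : ∀ k, K.nx^[k + 8] h = K.nx^[k] h := by
    intro k
    rw [Function.iterate_add_apply, hp]
  have g1 : ∀ k, K.nx.symm (K.nx^[k] h) = K.nx^[k + 7] h := by
    intro k
    rw [← hrot k]
    exact symm_iter (K := K) (k + 7) h
  have g2 : ∀ k, K.nx.symm (K.nx.symm (K.nx^[k] h)) = K.nx^[k + 6] h := by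
    intro k
    rw [g1 k]
    exact symm_iter (K := K) (k + 6) h
  have hL : ∀ k, L4 (t (k + 6)) (t (k + 7)) (t k) (t (k + 1)) ≤ K.gg (K.nx^[k] h) := by
    intro k
    have h1 := L4_le (K := K) (hmk k)
    rw [g2 k, g1 k, ← Function.iterate_succ_apply' K.nx] at h1
    exact h1
  set al : Bool := t 0 && t 1 && t 2 && t 3 && t 4 && t 5 && t 6 && t 7 with hal
  have hT : ∀ k, tgt K (K.nx^[k] h) ≤ ((t k != t (k + 7)).toNat : ℤ) - (al.toNat : ℤ) := by
    intro k
    have hmk' := hmk k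
    rw [tgt_ne (by omega)]
    have e1 : K.ur (K.nx^[k] h) = false := by
      unfold KM.ur; simp [hmk']
    have e2 : K.sm (K.nx^[k] h) = (t k != t (k + 7)) := by
      unfold KM.sm KM.Sg
      simp only [hmk', KM.tr_true, KM.tr_false, g1 k, ht]
      simp
    have e3 : (al.toNat : ℤ) ≤ ((K.vf (K.nx^[k] h)).toNat : ℤ) := by
      cases hb : al
      · simp
      · have hall : ∀ j, t j = true := by
          intro j
          have hj : t j = t (j % 8) := by
            conv_lhs => rw [← Nat.mod_add_div j 8]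
            generalize j / 8 = q
            generalize j % 8 = s
            induction q with
            | zero => simp
            | succ q ih => rw [Nat.mul_succ, ← Nat.add_assoc, hper, ih]
          rw [hj]
          have hlt : j % 8 < 8 := Nat.mod_lt _ (by norm_num)
          rw [hal] at hb
          simp only [Bool.and_eq_true] at hb
          obtain ⟨⟨⟨⟨⟨⟨⟨q0, q1⟩, q2⟩, q3⟩, q4⟩, q5⟩, q6⟩, q7⟩ := hb
          generalize j % 8 = s at hlt
          interval_cases s <;> assumption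
        have : K.vf (K.nx^[k] h) = true := by
          unfold KM.vf
          simp only [hmk', decide_true, Bool.true_and, decide_eq_true_eq]
          intro j
          rw [iter_add]
          exact hall _
        rw [this]
    rw [e1, e2]
    simp only [Bool.toNat_false]
    push_cast
    linarith
  have hmain := table4 (t 0) (t 1) (t 2) (t 3) (t 4) (t 5) (t 6) (t 7)
  have p0 := hper 0
  have p1 := hper 1
  have p2 := hper 2
  have p3 := hper 3
  have p4 := hper 4
  have p5 := hper 5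
  have p6 := hper 6
  simp only [Nat.reduceAdd] at p0 p1 p2 p3 p4 p5 p6
  have l0 := hL 0
  have l1 := hL 1
  have l2 := hL 2
  have l3 := hL 3
  have l4 := hL 4
  have l5 := hL 5
  have l6 := hL 6
  have l7 := hL 7
  simp only [Nat.reduceAdd, p0, p1, p2, p3, p4, p5, p6] at l0 l1 l2 l3 l4 l5 l6 l7
  have c0 := hT 0
  have c1 := hT 1
  have c2 := hT 2
  have c3 := hT 3
  have c4 := hT 4
  have c5 := hT 5
  have c6 := hT 6
  have c7 := hT 7
  simp only [Nat.reduceAdd, p0, p1, p2, p3, p4, p5, p6] at c0 c1 c2 c3 c4 c5 c6 c7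
  rw [← hal] at hmain
  simp only [Nat.reduceMul, Finset.sum_range_succ, Finset.sum_range_zero]
  linarith

theorem tG : StG := by
  intro n K hn
  have h1 : ∑ h, tgt K h ≤ ∑ h, K.gg h := by
    rw [← sub_nonneg, ← Finset.sum_sub_distrib]
    have h2 := m2_le (K := K) hn
    have h4 := m4_le (K := K)
    rw [← sub_nonneg, ← Finset.sum_sub_distrib] at h2 h4
    rw [← Finset.sum_filter_add_sum_filter_not univ (fun x => K.m x = 2)]
    refine add_nonneg h2 ?_
    rw [← Finset.sum_filter_add_sum_filter_not _ (fun x => K.m x = 4)]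
    refine add_nonneg ?_ ?_
    · have : (univ.filter (fun x : K.H => ¬ K.m x = 2)).filter (fun x => K.m x = 4) =
          univ.filter (fun x : K.H => K.m x = 4) := by
        ext x
        simp only [mem_filter, mem_univ, true_and]
        constructor
        · exact fun h => h.2
        · intro h; exact ⟨by omega, h⟩
      rw [this]
      exact h4
    · refine Finset.sum_nonneg (fun x hx => ?_)
      simp only [mem_filter, mem_univ, true_and] at hx
      have hx2 := K.two_le x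
      rw [sub_nonneg]
      rcases Nat.lt_or_ge (K.m x) 5 with h5 | h5
      · exact m3_le (by omega)
      · exact m5_le h5
  refine le_trans (le_of_eq ?_) h1
  unfold tgt
  push_cast
  simp only [Finset.sum_add_distrib, Finset.sum_sub_distrib, ← Finset.mul_sum]

end Pool.Agent.Helper77.KBL
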