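import Pool.Agent.Helper77.KBL.LineK
import Pool.Agent.Helper77.KBL.TG

/-!
# Vertices of type O or W
-/

namespace Pool.Agent.Helper77.KBL

open Pool.Agent.Helper23.KB Finset

variable {n : ℕ} {K : KM n}

theorem costly_nx {h : K.H} (hc : costly K h) : costly K (K.nx h) := by
  rcases hc with h1 | h1
  · exact Or.inl (isO_nx h1)
  · exact Or.inr (isW_nx h1)

theorem costly_symm {h : K.H} (hc : costly K h) : costly K (K.nx.symm h) := by
  rw [← nx3 (costly_m hc)]
  exact costly_nx (costly_nx (costly_nx hc))

theorem costly_r_iff (o : Bool) (h : K.H) : costly K (K.r o h) ↔ costly K h := by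
  cases o
  · constructor
    · intro hc
      have := costly_nx hc
      rwa [KM.r_false, Equiv.apply_symm_apply] at this
    · exact costly_symm
  · constructor
    · intro hc
      have := costly_symm hc
      rwa [KM.r_true, Equiv.symm_apply_apply] at this
    · exact costly_nx

/-- the type of the vertex does not depend on the half-edge -/
theorem cost_r (o : Bool) (h : K.H) : K.cost (K.r o h) = K.cost h := by
  have h1 := costly_r_iff (K := K) o h
  rw [costly_iff, costly_iff] at h1
  cases ha : K.cost (K.r o h) <;> cases hb : K.cost h <;> simp_all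

theorem cost_op (h : K.H) : K.cost (K.op h) = K.cost h := by
  have h1 := costly_op_iff (K := K) (h := h)
  rw [costly_iff, costly_iff, op_eq] at h1
  cases ha : K.cost (K.op h) <;> cases hb : K.cost h <;> simp_all

theorem cost_m {h : K.H} (hc : K.cost h = true) : K.m h = 2 :=
  costly_m ((costly_iff K h).2 hc)

/-- no double half-edges at costly vertices -/
theorem cost_Dd {h : K.H} (hc : K.cost h = true) : K.Dd h = false := by
  have hm := cost_m hc
  unfold KM.cost at hc
  rw [TO_table hm, TW_table hm] at hc
  have k0 := ry_key (K := K) (g := h)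
  have k1 := ry_key (K := K) (g := K.nx h)
  have k3 := ry_key (K := K) (g := K.nx.symm h)
  have e6 : K.nx.symm (K.nx h) = h := Equiv.symm_apply_apply _ _
  rw [e6] at k1
  have hd : K.Dd h = (K.tri h && K.tri (K.nx.symm h)) := rfl
  rw [hd]
  revert hc k0 k1 k3
  generalize K.tri h = t0
  generalize K.tri (K.nx h) = t1
  generalize K.tri (K.nx (K.nx h)) = t2
  generalize K.tri (K.nx.symm h) = t3
  generalize ry K h = p0
  generalize ry K (K.nx h) = p1
  generalize ry K (K.nx (K.nx h)) = p2
  generalize ry K (K.nx.symm h) = p3
  intro hc k0 k1 k3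
  cases t0 <;> cases t3 <;> cases t1 <;> cases t2 <;> cases p0 <;> cases p1 <;> cases p3 <;>
    simp_all

theorem cost_of_Dd {h : K.H} (hd : K.Dd h = true) : K.cost h = false := by
  cases hc : K.cost h
  · rfl
  · rw [cost_Dd hc] at hd; exact absurd hd (by simp)

/-- the edge from the far end of `g` to a costly neighbour is not double -/
theorem side_not_Dd {o : Bool} {g : K.H} (ht : K.tr o g = true)
    (hc : K.cost (K.rv (K.r o g)) = true) : K.Dd (K.r (!o) (K.rv g)) = false := by
  rw [← K.Dd_rv, K.third ht]
  exact cost_Dd (by rw [cost_r]; exact hc)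

end Pool.Agent.Helper77.KBL
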