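import Pool.Agent.Helper77.KBL.Cost

/-!
# `StE2`: every vertex of type E2 finds its two units
-/

namespace Pool.Agent.Helper77.KBL

open Pool.Agent.Helper23.KB Finset

variable {n : ℕ} {K : KM n}

/-- a double edge never joins two simple vertices -/
theorem Dd_simple (hNS : StNS) {g : K.H} (hm : K.m g = 2) (hd : K.Dd g = true) :
    K.m (K.rv g) ≠ 2 := by
  have h1 : K.start (g, true) := ⟨hm, K.Dd_tr (o := false) hd⟩
  have h2 : K.cont (g, true) := ⟨K.Dd_tr (o := true) hd, by show K.m g ≤ 3; omega⟩
  have h3 : K.Wk (g, true) (0 + 1) (K.nextS (g, true)) := ⟨(g, true), rfl, h2, rfl⟩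
  have h4 := hNS n K (g, true) 0 _ h1 h3
  have h5 : K.m (K.nextS (g, true)).1 = K.m (K.rv g) := by
    show K.m (K.r (!true) (K.rv g)) = _
    rw [K.m_r]
  rwa [h5] at h4

/-- a line with three consecutive vertices of multiplicities 2, 3, 2, the outer ones ends -/
theorem line_five {g : K.H} (hm : K.m g = 2) (hr : K.rv (K.op g) = K.op g)
    (hg : K.rv g ≠ g) (hT : K.m (K.rv g) = 3) (hX : K.m (K.qq g) = 2)
    (hg2 : K.rv (K.op (K.rv g)) ≠ K.op (K.rv g))
    (hr2 : K.rv (K.op (K.qq g)) = K.op (K.qq g)) : n = 5 := by
  classical
  set a := K.op (K.rv g) with ha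
  set b := K.op (K.qq g) with hb
  have hq : K.qq g = K.rv a := rfl
  have la : K.ln a = K.ln g := by rw [ha, K.ln_op', K.ln_rv]
  have da : K.dr a = K.dr g := by rw [ha, K.dr_op', K.dr_rv g hg, Bool.not_not]
  have lb : K.ln b = K.ln g := by rw [hb, K.ln_op', hq, K.ln_rv, la]
  have db : K.dr b = K.dr g := by rw [hb, K.dr_op', hq, K.dr_rv a hg2, Bool.not_not, da]
  have pa : K.ps a = K.ps g + (if K.dr g then 1 else -1) := by
    rw [ha, K.ps_op, K.ps_rv g hg]
  have pb : K.ps b = K.ps a + (if K.dr g then 1 else -1) := by
    rw [hb, K.ps_op, hq, K.ps_rv a hg2, da]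
  have hall : ∀ h, K.ln h = K.ln g → K.dr h = K.dr g → h = g ∨ h = a ∨ h = b := by
    intro h e1 e2
    obtain ⟨x, x1, x2, x3, x4⟩ := exists_max_dir K (K.ln g) (K.dr g)
    obtain ⟨y, y1, y2, y3, y4⟩ := exists_max_dir K (K.ln g) (!(K.dr g))
    obtain ⟨c, -, hc⟩ := K.ray (K.ln g) (K.dr g)
    obtain ⟨c', -, hc'⟩ := K.ray (K.ln g) (!(K.dr g))
    have ex : x = b := (hc x ⟨x1, x2, x3⟩).trans (hc b ⟨lb, db, hr2⟩).symm
    have ey : y = K.op g := (hc' y ⟨y1, y2, y3⟩).trans
      (hc' (K.op g) ⟨K.ln_op' g, K.dr_op' g, hr⟩).symm
    have f1 := x4 h e1 e2
    have f2 := y4 (K.op h) (by rw [K.ln_op', e1]) (by rw [K.dr_op', e2])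
    rw [ex, pb, pa] at f1
    rw [ey, K.ps_op, K.ps_op] at f2
    have key : K.ps h = K.ps g ∨ K.ps h = K.ps a ∨ K.ps h = K.ps b := by
      rw [pb, pa]
      cases hd : K.dr g
      · rw [hd] at f1 f2
        simp at f1 f2 ⊢
        omega
      · rw [hd] at f1 f2
        simp at f1 f2 ⊢
        omega
    rcases key with k | k | k
    · left; exact K.inj h g e1 k e2
    · right; left; exact K.inj h a (by rw [la]; exact e1) k (by rw [da]; exact e2)
    · right; right; exact K.inj h b (by rw [lb]; exact e1) k (by rw [db]; exact e2)
  have hab : a ≠ b := by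
    intro e
    have := pb
    rw [← e] at this
    cases hd : K.dr g <;> rw [hd] at this <;> simp at this
  have hga : g ≠ a := by
    intro e
    have := pa
    rw [← e] at this
    cases hd : K.dr g <;> rw [hd] at this <;> simp at this
  have hgb : g ≠ b := by
    intro e
    have h1 := pa
    have h2 := pb
    rw [← e] at h2
    rw [h1] at h2
    cases hd : K.dr g
    · rw [hd] at h2; simp at h2; omega
    · rw [hd] at h2; simp at h2; omega
  have hs := K.line_sum (K.ln g) (K.dr g)
  have hset : univ.filter (fun h : K.H => K.ln h = K.ln g ∧ K.dr h = K.dr g) = {g, a, b} := by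
    ext h
    simp only [mem_filter, mem_univ, true_and, mem_insert, mem_singleton]
    constructor
    · rintro ⟨h1, h2⟩; exact hall h h1 h2
    · rintro (rfl | rfl | rfl)
      · exact ⟨rfl, rfl⟩
      · exact ⟨la, da⟩
      · exact ⟨lb, db⟩
  rw [hset, Finset.sum_insert (by simp [hga, hgb]), Finset.sum_insert (by simp [hab]),
    Finset.sum_singleton] at hs
  have ma : K.m a = 3 := by rw [ha, K.m_op, hT]
  have mb : K.m b = 2 := by rw [hb, K.m_op, hX]
  rw [hm, ma, mb] at hs
  push_cast at hs
  omega

theorem two_le_of_four {a b c d : ℕ} (h : 2 ≤ a + b + (c + d)) : 2 ≤ a + b + c + d := by omega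

theorem tE2 (hNS : StNS) : StE2 := by
  intro n K g hn hn4
  cases hE : K.e2 g
  · simp
  have hE' := hE
  unfold KM.e2 at hE'
  simp only [Bool.and_eq_true, decide_eq_true_eq] at hE'
  obtain ⟨⟨hm, hd⟩, hr⟩ := hE'
  have hTne : K.m (K.rv g) ≠ 2 := Dd_simple hNS hm hd
  have hT2 := K.two_le (K.rv g)
  have tto : ∀ o, K.tr o g = true := fun o => K.Dd_tr hd
  -- abbreviations for the boolean data
  have ea1 : ∀ o, K.a1 o g = !(K.cw o g) := by
    intro o; unfold KM.a1; rw [hE]; simp
  by_cases hc1 : K.cw true g = true
  · by_cases hc2 : K.cw false g = true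
    · -- both neighbours are costly
      have hb : K.bth g = true := by unfold KM.bth; rw [hE, hc1, hc2]; rfl
      by_cases h4 : 4 ≤ K.m (K.rv g)
      · have b1t : K.b1 true g = true := by
          unfold KM.b1; rw [hE, hc1]; simpa using h4
        have b1f : K.b1 false g = true := by
          unfold KM.b1; rw [hE, hc2]; simpa using h4
        rw [b1t, b1f]
        simp only [Bool.toNat_true]
        omega
      have hT3 : K.m (K.rv g) = 3 := by omega
      have hcw : ∀ o, K.cost (K.rv (K.r o g)) = true := by
        intro o; cases o
        · exact hc2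
        · exact hc1
      have hSd : ∀ o, K.Dd (K.r (!o) (K.rv g)) = false := fun o => side_not_Dd (tto o) (hcw o)
      -- the sector behind the costly neighbour is empty
      have hsec : ∀ o, K.tr (!o) (K.r (!o) (K.rv g)) = false := by
        intro o
        have h1 : K.tr o (K.r (!o) (K.rv g)) = true := by
          rw [K.tr_r']; exact K.tr_rv (tto o)
        cases h2 : K.tr (!o) (K.r (!o) (K.rv g))
        · rfl
        · have := (K.Dd_iff o _).2 ⟨h1, h2⟩
          rw [hSd o] at this
          exact absurd this (by simp)
      have hyo : ∀ o, K.tr o (K.yy o g) = false := by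
        intro o
        unfold KM.yy
        rw [K.tr_r']
        exact hsec o
      have hyD : ∀ o, K.Dd (K.yy o g) = false := by
        intro o
        cases h2 : K.Dd (K.yy o g)
        · rfl
        · rw [K.Dd_iff o, hyo o] at h2
          exact absurd h2.1 (by simp)
      by_cases hs1 : K.Sg (K.yy true g) = true
      swap
      · have hb2 : K.b2 true g = true := by
          unfold KM.b2 KM.ur
          have hmy : K.m (K.yy true g) = 3 := by unfold KM.yy; rw [K.m_r, K.m_r]; exact hT3
          rw [hb, hyD true]
          simp [hT3, hmy, hs1]
        rw [hb2]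
        simp only [Bool.toNat_true]
        omega
      by_cases hs2 : K.Sg (K.yy false g) = true
      swap
      · have hb2 : K.b2 false g = true := by
          unfold KM.b2 KM.ur
          have hmy : K.m (K.yy false g) = 3 := by unfold KM.yy; rw [K.m_r, K.m_r]; exact hT3
          rw [hb, hyD false]
          simp [hT3, hmy, hs2]
        rw [hb2]
        simp only [Bool.toNat_true]
        omega
      -- the apex is of type T4a
      have hop : ∀ o, K.op (K.rv g) = K.r (!o) (K.yy o g) := by
        intro o
        unfold KM.yy
        exact (K.r3 (o := !o) hT3).symm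
      have hSo : ∀ o, K.tr (!o) (K.yy o g) = true := by
        intro o
        have h1 : K.Sg (K.yy o g) = true := by cases o; exacts [hs2, hs1]
        rw [K.Sg_iff (!o), Bool.not_not, hyo o] at h1
        exact h1
      have hopD : K.Dd (K.op (K.rv g)) = true := by
        rw [K.Dd_iff true]
        constructor
        · rw [hop true]
          have h2 := K.tr_r (!true) (K.yy true g)
          rw [Bool.not_not] at h2
          rw [h2]; exact hSo true
        · rw [hop false]
          have h2 := K.tr_r (!false) (K.yy false g)
          rw [Bool.not_not] at h2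
          have h3 := hSo false
          rw [← h2] at h3
          exact h3
      have ht4 : K.t4 g = true := by
        unfold KM.t4; rw [hb, hs1, hs2, hopD]; simp [hT3]
      have hqD : K.Dd (K.qq g) = true := by unfold KM.qq; rw [K.Dd_rv]; exact hopD
      have hX2 := K.two_le (K.qq g)
      by_cases hX4 : 4 ≤ K.m (K.qq g)
      · have h1 : ∀ o, K.b4 o g = true := by
          intro o; unfold KM.b4; rw [ht4]; simpa using hX4
        rw [h1, h1]
        simp only [Bool.toNat_true]
        omega
      by_cases hX3 : K.m (K.qq g) = 3
      · by_cases hcf : K.cost (K.rv (K.yy false g)) = true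
        · have h1 : K.b5 true g = true := by
            unfold KM.b5; rw [ht4, Bool.not_true, hcf]; simp [hX3]
          rw [h1]
          simp only [Bool.toNat_true]
          omega
        by_cases hct : K.cost (K.rv (K.yy true g)) = true
        · have h1 : K.b5 false g = true := by
            unfold KM.b5; rw [ht4, Bool.not_false, hct]; simp [hX3]
          rw [h1]
          simp only [Bool.toNat_true]
          omega
        have h1 : K.a3 true g = true := by
          unfold KM.a3; rw [ht4, Bool.not_true]; simp [hX3, hcf, hct]
        have h2 : K.a3 false g = true := by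
          unfold KM.a3; rw [ht4, Bool.not_false]; simp [hX3, hcf, hct]
        rw [h1, h2]
        simp only [Bool.toNat_true]
        omega
      have hXm : K.m (K.qq g) = 2 := by omega
      cases hs : K.s2 (K.qq g)
      swap
      · have h1 : K.b3 g = true := by unfold KM.b3; rw [ht4, hs]; rfl
        rw [h1]
        simp only [Bool.toNat_true]
        omega
      -- `X` is of type S3 or S4
      cases hcf : K.cost (K.rv (K.yy false g))
      · cases hct : K.cost (K.rv (K.yy true g))
        · have h1 : K.a3 true g = true := by
            unfold KM.a3; rw [ht4]; simp [hXm, hcf, hct, hs]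
          have h2 : K.a3 false g = true := by
            unfold KM.a3; rw [ht4]; simp [hXm, hcf, hct, hs]
          rw [h1, h2]
          simp only [Bool.toNat_true]
          omega
        · have h1 : K.a3 false g = true := by
            unfold KM.a3; rw [ht4]; simp [hXm, hcf, hs]
          have h2 : K.a4 false g = true := by
            unfold KM.a4; rw [ht4]; simp [hXm, hcf, hct, hs]
          rw [h1, h2]
          simp only [Bool.toNat_true]
          omega
      · cases hct : K.cost (K.rv (K.yy true g))
        · have h1 : K.a3 true g = true := by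
            unfold KM.a3; rw [ht4]; simp [hXm, hct, hs]
          have h2 : K.a4 true g = true := by
            unfold KM.a4; rw [ht4]; simp [hXm, hcf, hct, hs]
          rw [h1, h2]
          simp only [Bool.toNat_true]
          omega
        · -- both `Y` costly: then `X` would be of type E2 and `n = 5`
          exfalso
          have hside : ∀ o, K.Dd (K.r (!o) (K.qq g)) = false := by
            intro o
            have h1 : K.cost (K.rv (K.yy o g)) = true := by cases o; exacts [hcf, hct]
            have h2 : K.tr o (K.op (K.rv g)) = true := K.Dd_tr hopD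
            have h3 : K.rv (K.r o (K.op (K.rv g))) = K.rv (K.yy o g) := by
              rw [hop o, K.r_r']
            exact side_not_Dd h2 (by rw [h3]; exact h1)
          have hs3 : K.Dd (K.nx (K.qq g)) = false := hside false
          have hs4 : K.Dd (K.nx.symm (K.qq g)) = false := hside true
          have hs5 : K.Dd (K.op (K.qq g)) = false := by
            cases h1 : K.Dd (K.op (K.qq g))
            · rfl
            · exfalso
              have h2 : K.tri (K.op (K.qq g)) = true := K.Dd_tr (o := true) h1
              have h3 : K.tri (K.nx.symm (K.qq g)) = true := K.Dd_tr (o := false) hqD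
              have h4 : K.Dd (K.nx.symm (K.qq g)) = true := by
                rw [K.Dd_iff true]
                refine ⟨h3, ?_⟩
                show K.tri (K.nx.symm (K.nx.symm (K.qq g))) = true
                rw [symm_symm' hXm, ← op2' hXm]
                exact h2
              rw [hs4] at h4
              exact absurd h4 (by simp)
          have hray : K.rv (K.op (K.qq g)) = K.op (K.qq g) := by
            by_contra hne
            have : K.s2 (K.qq g) = true := by
              unfold KM.s2
              rw [hqD, hs3, hs4, hs5]
              simp [hXm, hne]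
            rw [hs] at this
            exact absurd this (by simp)
          have h5 := line_five hm hr (K.Dd_ray hd) hT3 hXm (K.Dd_ray hopD) hray
          rw [h5] at hn
          exact absurd hn (by decide)
    · have hc2' : K.cw false g = false := by simpa using hc2
      by_cases h3 : K.m (K.rv g) = 3
      · have h1 : K.a2 false g = true := by
          unfold KM.a2; rw [hE, hc2', Bool.not_false, hc1]; simp [h3]
        rw [ea1 false, hc2', h1]
        simp only [Bool.not_false, Bool.toNat_true]
        omega
      · have h1 : K.b1 true g = true := by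
          unfold KM.b1; rw [hE, hc1]
          simp only [Bool.and_self, Bool.true_and, decide_eq_true_eq]
          omega
        rw [ea1 false, hc2', h1]
        simp only [Bool.not_false, Bool.toNat_true]
        omega
  · have hc1' : K.cw true g = false := by simpa using hc1
    cases hc2 : K.cw false g
    · rw [ea1, ea1, hc1', hc2]
      simp only [Bool.not_false, Bool.toNat_true]
      omega
    · by_cases h3 : K.m (K.rv g) = 3
      · have h1 : K.a2 true g = true := by
          unfold KM.a2; rw [hE, hc1', Bool.not_true, hc2]; simp [h3]
        rw [ea1 true, hc1', h1]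
        simp only [Bool.not_false, Bool.toNat_true]
        omega
      · have h1 : K.b1 false g = true := by
          unfold KM.b1; rw [hE, hc2]
          simp only [Bool.and_self, Bool.true_and, decide_eq_true_eq]
          omega
        rw [ea1 true, hc1', h1]
        simp only [Bool.not_false, Bool.toNat_true]
        omega

end Pool.Agent.Helper77.KBL
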