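import Pool.Agent.Helper77.KBL.TE2

/-!
# `StIm`: the types of the simple neighbours of a full vertex
-/

namespace Pool.Agent.Helper77.KBL

open Pool.Agent.Helper23.KB Finset

variable {n : ℕ} {K : KM n}

theorem ln_r_ne (o : Bool) (h : K.H) : K.ln (K.r o h) ≠ K.ln h := by
  cases o
  · intro e
    have := K.ln_ne (K.nx.symm h) 1 (by norm_num) (by have := K.two_le (K.nx.symm h); omega)
    rw [Function.iterate_one, Equiv.apply_symm_apply] at this
    exact this e.symm
  · exact K.ln_ne h 1 (by norm_num) (by have := K.two_le h; omega)

/-- passing straight over a simple neighbour: the line of the third side goes on -/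
theorem ln_third {o : Bool} {h : K.H} (ht : K.tr o h = true) :
    K.ln (K.r o (K.rv (K.r o h))) = K.ln (K.r (!o) (K.rv h)) := by
  rw [← K.third ht, K.ln_rv]

theorem ln_simple {o : Bool} {h : K.H} (hm : K.m h = 2) :
    K.ln (K.r (!o) h) = K.ln (K.r o h) := by
  rw [K.r2' hm, K.ln_op']

/-- two opposite half-edges have different far ends -/
theorem opp_ends {h : K.H} (h1 : K.rv h ≠ h) (h2 : K.rv (K.op h) ≠ K.op h) :
    K.vt (K.rv h) ≠ K.vt (K.rv (K.op h)) := by
  intro e
  have h3 := K.ps_vt (K.rv h) (K.rv (K.op h)) (by rw [K.ln_rv, K.ln_rv, K.ln_op']) e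
  rw [K.ps_rv h h1, K.ps_rv _ h2, K.ps_op, K.dr_op'] at h3
  cases hd : K.dr h <;> rw [hd] at h3 <;> simp at h3

/-- **three consecutive simple neighbours of a vertex of multiplicity four** do not exist -/
theorem three_simple {h : K.H} (hm : K.m h = 4) (t0 : K.tr true h = true)
    (t1 : K.tr true (K.nx h) = true) (s0 : K.tr false h = true)
    (s1 : K.tr false (K.nx.symm h) = true) (m0 : K.m (K.rv h) = 2)
    (m1 : K.m (K.rv (K.nx h)) = 2) (m2 : K.m (K.rv (K.nx.symm h)) = 2) : False := by
  -- the line `L` through the three simple neighbours
  have a1 := ln_third t0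
  have a2 := ln_third t1
  have b1 := ln_third s0
  have b2 := ln_third s1
  have c0 := ln_simple (o := true) m0
  have c1 := ln_simple (o := true) m1
  have c2 := ln_simple (o := true) m2
  simp only [KM.r_true, KM.r_false, Bool.not_true, Bool.not_false] at a1 a2 b1 b2 c0 c1 c2
  have e1 : K.ln (K.nx (K.rv (K.nx (K.nx h)))) = K.ln (K.nx (K.rv h)) := by
    rw [a2, c1, a1, c0]
  have e2 : K.ln (K.nx.symm (K.rv (K.nx.symm (K.nx.symm h)))) = K.ln (K.nx (K.rv h)) := by
    rw [b2, ← c2, b1]
  -- the opposite half-edges at the full vertex
  have ho : K.nx (K.nx h) = K.op (K.nx.symm (K.nx.symm h)) := by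
    have hm' : K.m (K.nx.symm (K.nx.symm h)) = 4 := by rw [K.m_symm, K.m_symm]; exact hm
    have := K.r4 (o := true) hm'
    simp only [KM.r_true, Equiv.apply_symm_apply] at this
    exact this
  set g := K.nx.symm (K.nx.symm h) with hg
  have r1 : K.rv g ≠ g := by
    have : K.tr true g = true := by
      have h2 := s1
      show K.tri (K.nx.symm (K.nx.symm h)) = true
      exact h2
    exact K.tr_ray this
  have r2 : K.rv (K.op g) ≠ K.op g := by
    rw [← ho]
    have : K.tr false (K.nx (K.nx h)) = true := by
      show K.tri (K.nx.symm (K.nx (K.nx h))) = true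
      rw [Equiv.symm_apply_apply]
      exact t1
    exact K.tr_ray this
  have hv : K.vt (K.nx (K.rv (K.nx (K.nx h)))) = K.vt (K.nx.symm (K.rv g)) := by
    apply K.meet _ (K.rv (K.nx (K.nx h))) _ (K.rv g)
    · exact K.vt_nx _
    · exact K.vt_symm _
    · rw [e1, e2]
    · rw [K.ln_rv, K.ln_rv, ho, K.ln_op']
    · exact ln_r_ne true _
  rw [K.vt_nx, K.vt_symm, ho] at hv
  exact opp_ends r1 r2 hv.symm

/-! ### the full vertex -/

theorem vf_m {h : K.H} (hv : K.vf h = true) : K.m h = 4 := by
  unfold KM.vf at hv
  simp only [Bool.and_eq_true, decide_eq_true_eq] at hv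
  exact hv.1

theorem vf_tri {h : K.H} (hv : K.vf h = true) (k : ℕ) : K.tri (K.nx^[k] h) = true := by
  have hm := vf_m hv
  unfold KM.vf at hv
  simp only [Bool.and_eq_true, decide_eq_true_eq] at hv
  have hp : K.nx^[8] h = h := by have := K.per h; rw [hm] at this; exact this
  have h1 : K.nx^[k] h = K.nx^[k % 8] h := by
    conv_lhs => rw [← Nat.mod_add_div k 8]
    rw [Function.iterate_add_apply, Function.iterate_mul, Function.iterate_fixed hp]
  rw [h1]
  exact hv.2 ⟨k % 8, Nat.mod_lt _ (by norm_num)⟩

theorem vf_symm {h : K.H} (hv : K.vf h = true) : K.nx.symm h = K.nx^[7] h := by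
  have hm := vf_m hv
  have hp : K.nx^[8] h = h := by have := K.per h; rw [hm] at this; exact this
  rw [← symm_iter 7 h, hp]

theorem vf_tr' {h : K.H} (hv : K.vf h = true) (o : Bool) : K.tr o h = true := by
  cases o
  · show K.tri (K.nx.symm h) = true
    rw [vf_symm hv]; exact vf_tri hv 7
  · exact vf_tri hv 0

theorem tIm : StIm := by
  intro n K k
  cases hi : K.ims (K.rv k)
  · simp
  have hi' := hi
  unfold KM.ims at hi'
  simp only [Bool.and_eq_true, decide_eq_true_eq, K.rv_rv] at hi'
  obtain ⟨⟨hv, hm⟩, -⟩ := hi'
  have hm4 := vf_m hv
  have hDk : K.Dd k = true := by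
    rw [← K.Dd_rv, K.Dd_iff true]
    exact ⟨vf_tr' hv true, vf_tr' hv (!true)⟩
  have ht : ∀ o, K.tr (!o) (K.r o k) = true := fun o => by rw [K.tr_r]; exact K.Dd_tr hDk
  -- double on both sides gives S4
  rcases K.Sg_or_Dd (ht true) with s1 | d1
  · rcases K.Sg_or_Dd (ht false) with s2 | d2
    · -- both single: S2b or E2
      have nd1 : K.Dd (K.nx k) = false := by
        cases h1 : K.Dd (K.nx k)
        · rfl
        · have := K.Dd_not_Sg h1
          rw [KM.r_true, this] at s1
          exact absurd s1 (by simp)
      have nd2 : K.Dd (K.nx.symm k) = false := by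
        cases h1 : K.Dd (K.nx.symm k)
        · rfl
        · have := K.Dd_not_Sg h1
          rw [KM.r_false, this] at s2
          exact absurd s2 (by simp)
      have nd3 : K.Dd (K.op k) = false := by
        cases h1 : K.Dd (K.op k)
        · rfl
        · exfalso
          have h2 : K.tri (K.op k) = true := K.Dd_tr (o := true) h1
          have h4 : K.Dd (K.nx.symm k) = true := by
            rw [K.Dd_iff true]
            refine ⟨K.Dd_tr (o := false) hDk, ?_⟩
            show K.tri (K.nx.symm (K.nx.symm k)) = true
            rw [symm_symm' hm, ← op2' hm]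
            exact h2
          rw [nd2] at h4
          exact absurd h4 (by simp)
      by_cases hr : K.rv (K.op k) = K.op k
      · -- type E2: one of the neighbours is not simple
        have he : K.e2 k = true := by
          unfold KM.e2; rw [hDk]; simp [hm, hr]
        by_cases hA : K.m (K.rv (K.r true k)) = 2
        · by_cases hB : K.m (K.rv (K.r false k)) = 2
          · exfalso
            have q1 : K.tr true (K.rv k) = true := vf_tr' hv true
            have q2 : K.tr false (K.rv k) = true := vf_tr' hv false
            -- the neighbours seen from the full vertex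
            have x1 := K.third q1
            have x2 := K.third q2
            simp only [K.rv_rv, Bool.not_true, Bool.not_false] at x1 x2
            refine three_simple hm4 q1 ?_ q2 ?_ (by rw [K.rv_rv]; exact hm) ?_ ?_
            · exact vf_tri hv 1
            · show K.tri (K.nx.symm (K.nx.symm (K.rv k))) = true
              rw [vf_symm hv, symm_iter 6]
              exact vf_tri hv 6
            · rw [← K.m_r true, KM.r_true]
              have : K.m (K.r true (K.rv (K.r true (K.rv k)))) = 2 := by rw [← x1]; exact hB
              exact this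
            · rw [← K.m_r false, KM.r_false]
              have : K.m (K.r false (K.rv (K.r false (K.rv k)))) = 2 := by rw [← x2]; exact hA
              exact this
          · have : K.v3 false k = true := by
              unfold KM.v3; rw [hi, he, decide_eq_false hB]; rfl
            rw [this]
            simp only [Bool.toNat_true]
            omega
        · have : K.v3 true k = true := by
            unfold KM.v3; rw [hi, he, decide_eq_false hA]; rfl
          rw [this]
          simp only [Bool.toNat_true]
          omega
      · have h2 : K.s2 k = true := by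
          unfold KM.s2
          rw [hDk, nd1, nd2, nd3]
          simp [hm, hr]
        have : K.v2 k = true := by
          unfold KM.v2; rw [hi, h2]; rfl
        rw [this]
        simp only [Bool.toNat_true]
        omega
    · have : K.v1 true k = true := by
        unfold KM.v1; rw [hi, s1, Bool.not_true, d2]; rfl
      rw [this]
      simp only [Bool.toNat_true]
      omega
  · rcases K.Sg_or_Dd (ht false) with s2 | d2
    · have : K.v1 false k = true := by
        unfold KM.v1; rw [hi, s2, Bool.not_false, d1]; rfl
      rw [this]
      simp only [Bool.toNat_true]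
      omega
    · have d3 : K.Dd (K.op k) = true := by
        rw [K.Dd_iff true]
        constructor
        · have := K.Dd_tr (o := false) (h := K.nx.symm k) d2
          show K.tri (K.op k) = true
          have h2 : K.tri (K.nx.symm (K.nx.symm k)) = true := this
          rw [symm_symm' hm, ← op2' hm] at h2
          exact h2
        · have := K.Dd_tr (o := true) (h := K.nx k) d1
          show K.tri (K.nx.symm (K.op k)) = true
          rw [op2' hm, Equiv.symm_apply_apply]
          exact this
      have h4 : K.s4 k = true := by
        unfold KM.s4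
        have d1' : K.Dd (K.nx k) = true := d1
        have d2' : K.Dd (K.nx.symm k) = true := d2
        rw [hDk, d1', d2', d3]; simp [hm]
      have : K.v4 k = true := by
        unfold KM.v4; rw [hi, h4]; rfl
      rw [this]
      simp only [Bool.toNat_true]
      omega

end Pool.Agent.Helper77.KBL
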