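import Pool.Agent.Helper77.KBL.LineK
import Pool.Agent.Helper23.KB.St

/-!
# `StLine`
-/

namespace Pool.Agent.Helper77.KBL

open Pool.Agent.Helper23.KB Finset

theorem sum_toNat {α : Type} [Fintype α] (f : α → Bool) :
    ∑ h, (f h).toNat = (univ.filter (fun h => f h = true)).card := by
  rw [Finset.card_filter]
  refine Finset.sum_congr rfl (fun h _ => ?_)
  cases f h <;> rfl

theorem tLine : StLine := by
  intro n K hn _
  have := line_api K hn
  rw [sum_toNat, sum_toNat, sum_toNat, sum_toNat]
  omega

end Pool.Agent.Helper77.KBL
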