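import Mathlib

/-!
# The count at an S4 vertex
-/

namespace Pool.Agent.Helper77.KBL

set_option maxHeartbeats 4000000 in
theorem count4 (x0 x1 x2 x3 e0 e1 e2 e3 : Bool) (a0 a1 a2 a3 b0 b1 b2 b3 v0 v1 v2 v3 : ℕ)
    (ha0 : a0 ≤ 1) (ha1 : a1 ≤ 1) (ha2 : a2 ≤ 1) (ha3 : a3 ≤ 1)
    (hb0 : b0 ≤ 1) (hb1 : b1 ≤ 1) (hb2 : b2 ≤ 1) (hb3 : b3 ≤ 1)
    (hv0 : v0 ≤ 1) (hv1 : v1 ≤ 1) (hv2 : v2 ≤ 1) (hv3 : v3 ≤ 1)
    (p0 : (x0 || !e0) = true → a0 = 0) (p1 : (x1 || !e1) = true → a1 = 0)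
    (p2 : (x2 || !e2) = true → a2 = 0) (p3 : (x3 || !e3) = true → a3 = 0)
    (q0 : (x0 || !e3) = true → b0 = 0) (q1 : (x1 || !e0) = true → b1 = 0)
    (q2 : (x2 || !e1) = true → b2 = 0) (q3 : (x3 || !e2) = true → b3 = 0)
    (r0 : (!x0 || (!x1 && !x2 && !x3 && e1 && e2)) = true → v0 = 0)
    (r1 : (!x1 || (!x2 && !x3 && !x0 && e2 && e3)) = true → v1 = 0)
    (r2 : (!x2 || (!x3 && !x0 && !x1 && e3 && e0)) = true → v2 = 0)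
    (r3 : (!x3 || (!x0 && !x1 && !x2 && e0 && e1)) = true → v3 = 0)
    (s0 : (x1 && (x2 || (!x2 && !x3 && !x0 && e2 && e3))) = true → a0 = 0)
    (s1 : (x2 && (x3 || (!x3 && !x0 && !x1 && e3 && e0))) = true → a1 = 0)
    (s2 : (x3 && (x0 || (!x0 && !x1 && !x2 && e0 && e1))) = true → a2 = 0)
    (s3 : (x0 && (x1 || (!x1 && !x2 && !x3 && e1 && e2))) = true → a3 = 0)
    (t0 : (x3 && (x2 || (!x0 && !x1 && !x2 && e0 && e1))) = true → b0 = 0)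
    (t1 : (x0 && (x3 || (!x1 && !x2 && !x3 && e1 && e2))) = true → b1 = 0)
    (t2 : (x1 && (x0 || (!x2 && !x3 && !x0 && e2 && e3))) = true → b2 = 0)
    (t3 : (x2 && (x1 || (!x3 && !x0 && !x1 && e3 && e0))) = true → b3 = 0)
    (u0 : x0 = true → a3 + b1 ≤ 1) (u1 : x1 = true → a0 + b2 ≤ 1)
    (u2 : x2 = true → a1 + b3 ≤ 1) (u3 : x3 = true → a2 + b0 ≤ 1)
    (w0 : (!x0 && !x1 && !x2 && !x3 && e0 && e2) = true → False)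
    (w1 : (!x0 && !x1 && !x2 && !x3 && e1 && e3) = true → False) :
    (v0 + (a0 + b0)) + (v1 + (a1 + b1)) + (v2 + (a2 + b2)) + (v3 + (a3 + b3)) ≤ 4 := by
  cases x0 <;> cases x1 <;> cases x2 <;> cases x3 <;>
    cases e0 <;> cases e1 <;> cases e2 <;> cases e3 <;>
    (try simp at *) <;>
    (try omega)

end Pool.Agent.Helper77.KBL
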