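import Pool.Agent.Helper77.KBL.S4a
import Pool.Agent.Helper77.KBL.S4c

/-!
# `StS4`: the capacity of S4 vertices
-/

namespace Pool.Agent.Helper77.KBL

open Pool.Agent.Helper23.KB Finset

variable {n : ℕ} {K : KM n}

/-! ### walks are deterministic -/

theorem wk_det {s t t' : K.St} {k : ℕ} (h : K.Wk s k t) (h' : K.Wk s k t') : t = t' := by
  induction k generalizing t t' with
  | zero => exact h.trans h'.symm
  | succ k ih =>
    obtain ⟨u, hu, -, rfl⟩ := h
    obtain ⟨u', hu', -, rfl⟩ := h'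
    rw [ih hu hu']

theorem wk_lt {s t t' : K.St} {k k' : ℕ} (h : K.Wk s k t) (h' : K.Wk s k' t') (hk : k < k') :
    K.cont t := by
  induction k' generalizing t' with
  | zero => omega
  | succ k' ih =>
    obtain ⟨u, hu, hc, rfl⟩ := h'
    rcases Nat.lt_or_ge k k' with h1 | h1
    · exact ih hu h1
    · have e : k = k' := by omega
      subst e
      rw [wk_det h hu]; exact hc

theorem wk_term {s t t' : K.St} {k k' : ℕ} (h : K.Wk s k t) (h' : K.Wk s k' t')
    (hc : ¬ K.cont t) (hc' : ¬ K.cont t') : t = t' := by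
  rcases lt_trichotomy k k' with h1 | h1 | h1
  · exact absurd (wk_lt h h' h1) hc
  · subst h1; exact wk_det h h'
  · exact absurd (wk_lt h' h h1) hc'

/-! ### payers at an S4 vertex -/

theorem rv_symm_q {k : K.H} (ht : K.tri k = true) :
    K.rv (K.nx.symm (K.rv k)) = K.nx (K.rv (K.nx k)) := third_true ht

/-- the payer `(k, true)`: if the next vertex has multiplicity at least four, then it is a full
vertex asking the group of its half-edge to `x` -/
theorem pay_true {k : K.H} (hm : K.m k = 2) (d0 : K.Dd k = true) (hp : K.pay (k, true) = true)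
    (m0 : K.m (K.rv k) = 3) (e0 : K.Dd (K.nx.symm (K.rv k)) = true)
    (m1 : 4 ≤ K.m (K.rv (K.nx k))) :
    K.fg (K.rv (K.nx k)) = true ∧ K.Lead (k, true) (K.sl true (K.rv (K.nx k))) ∧
      K.nc (k, true) = true := by
  rw [K.pay_iff] at hp
  obtain ⟨β, o, hf, hL, hn, -⟩ := hp
  have t01 := third_true (K := K) (K.Dd_tr (o := true) d0)
  have hst : K.start (k, true) := ⟨hm, K.Dd_tr (o := false) d0⟩
  set u1 : K.St := K.nextS (k, true) with hu1
  have eu1 : u1 = (K.nx.symm (K.rv k), false) := rfl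
  have w1 : K.Wk (k, true) 1 u1 := ⟨(k, true), rfl,
    ⟨K.Dd_tr (o := true) d0, by show K.m k ≤ 3; omega⟩, rfl⟩
  have c1 : K.cont u1 := by
    rw [eu1]
    refine ⟨K.Dd_tr (o := false) e0, ?_⟩
    show K.m (K.nx.symm (K.rv k)) ≤ 3
    rw [K.m_symm]; omega
  have w2 : K.Wk (k, true) 2 (K.nextS u1) := ⟨u1, w1, c1, rfl⟩
  have e2 : K.nextS u1 = K.sl true (K.rv (K.nx k)) := by
    rw [eu1]
    show (K.r (!false) (K.rv (K.nx.symm (K.rv k))), !false) = _
    rw [t01]; rfl
  have c2 : ¬ K.cont (K.nextS u1) := by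
    rw [e2]
    rintro ⟨-, h2⟩
    have h3 : K.m (K.sl true (K.rv (K.nx k))).1 = K.m (K.rv (K.nx k)) := by
      show K.m (K.r true (K.r true _)) = _
      rw [K.m_r, K.m_r]
    rw [h3] at h2
    omega
  obtain ⟨hs, ⟨j, hj⟩, hc⟩ := hL
  have e3 := wk_term hj w2 hc c2
  rw [e2] at e3
  have eo : o = true := congrArg Prod.snd e3
  subst eo
  have eβ : β = K.rv (K.nx k) := by
    have h4 : K.r true (K.r true β) = K.r true (K.r true (K.rv (K.nx k))) := congrArg Prod.fst e3
    exact K.r_inj true (K.r_inj true h4)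
  subst eβ
  exact ⟨hf, ⟨hs, ⟨j, hj⟩, hc⟩, hn⟩

/-- the mirror image -/
theorem pay_false {k : K.H} (hm : K.m k = 2) (d0 : K.Dd k = true) (hp : K.pay (k, false) = true)
    (m0 : K.m (K.rv k) = 3) (e0 : K.Dd (K.nx (K.rv k)) = true)
    (m1 : 4 ≤ K.m (K.rv (K.nx.symm k))) :
    K.fg (K.rv (K.nx.symm k)) = true ∧ K.Lead (k, false) (K.sl false (K.rv (K.nx.symm k))) ∧
      (∀ s', K.Lead s' (K.sl true (K.rv (K.nx.symm k))) → K.nc s' = false) := by
  rw [K.pay_iff] at hp
  obtain ⟨β, o, hf, hL, hn, hq⟩ := hp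
  have t01 := third_false (K := K) (k := k) (K.Dd_tr (o := false) d0)
  have hst : K.start (k, false) := ⟨hm, K.Dd_tr (o := true) d0⟩
  set u1 : K.St := K.nextS (k, false) with hu1
  have eu1 : u1 = (K.nx (K.rv k), true) := rfl
  have w1 : K.Wk (k, false) 1 u1 := ⟨(k, false), rfl,
    ⟨K.Dd_tr (o := false) d0, by show K.m k ≤ 3; omega⟩, rfl⟩
  have c1 : K.cont u1 := by
    rw [eu1]
    refine ⟨K.Dd_tr (o := true) e0, ?_⟩
    show K.m (K.nx (K.rv k)) ≤ 3
    rw [K.m_nx]; omega
  have w2 : K.Wk (k, false) 2 (K.nextS u1) := ⟨u1, w1, c1, rfl⟩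
  have e2 : K.nextS u1 = K.sl false (K.rv (K.nx.symm k)) := by
    rw [eu1]
    show (K.r (!true) (K.rv (K.nx (K.rv k))), !true) = _
    rw [t01]; rfl
  have c2 : ¬ K.cont (K.nextS u1) := by
    rw [e2]
    rintro ⟨-, h2⟩
    have h3 : K.m (K.sl false (K.rv (K.nx.symm k))).1 = K.m (K.rv (K.nx.symm k)) := by
      show K.m (K.r false (K.r false _)) = _
      rw [K.m_r, K.m_r]
    rw [h3] at h2
    omega
  obtain ⟨hs, ⟨j, hj⟩, hc⟩ := hL
  have e3 := wk_term hj w2 hc c2
  rw [e2] at e3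
  have eo : o = false := congrArg Prod.snd e3
  subst eo
  have eβ : β = K.rv (K.nx.symm k) := by
    have h4 : K.r false (K.r false β) = K.r false (K.r false (K.rv (K.nx.symm k))) :=
      congrArg Prod.fst e3
    exact K.r_inj false (K.r_inj false h4)
  subst eβ
  exact ⟨hf, ⟨hs, ⟨j, hj⟩, hc⟩, hq rfl⟩

/-- a claimed slot on side `false` of the group of `q1` comes from a vertex of multiplicity
at most three -/
theorem clm_false {q : K.H} (hm : K.m q = 4) (hc : K.clm false q = true) :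
    K.m (K.rv (K.nx.symm q)) ≤ 3 := by
  unfold KM.clm at hc
  rw [K.rc_iff] at hc
  obtain ⟨s, j, hs, hj⟩ := hc
  cases j with
  | zero =>
    exfalso
    have h1 : K.sl false q = s := hj
    have h2 := hs.1
    rw [← h1] at h2
    have h3 : K.m (K.sl false q).1 = K.m q := by
      show K.m (K.r false (K.r false q)) = _
      rw [K.m_r, K.m_r]
    rw [h3] at h2
    omega
  | succ j =>
    obtain ⟨u, -, hcu, hu⟩ := hj
    have h1 : K.r false (K.r false q) = K.r (!u.2) (K.rv u.1) := congrArg Prod.fst hu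
    have h2 : false = !u.2 := congrArg Prod.snd hu
    rw [← h2] at h1
    have h3 := K.r_inj false h1
    have h4 : u.1 = K.rv (K.nx.symm q) := by
      have h5 : K.nx.symm q = K.rv u.1 := h3
      rw [h5, K.rv_rv]
    rw [← h4]
    exact hcu.2

theorem clm_true {q : K.H} (hm : K.m q = 4) (hc : K.clm true q = true) :
    K.m (K.rv (K.nx q)) ≤ 3 := by
  unfold KM.clm at hc
  rw [K.rc_iff] at hc
  obtain ⟨s, j, hs, hj⟩ := hc
  cases j with
  | zero =>
    exfalso
    have h1 : K.sl true q = s := hj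
    have h2 := hs.1
    rw [← h1] at h2
    have h3 : K.m (K.sl true q).1 = K.m q := by
      show K.m (K.r true (K.r true q)) = _
      rw [K.m_r, K.m_r]
    rw [h3] at h2
    omega
  | succ j =>
    obtain ⟨u, -, hcu, hu⟩ := hj
    have h1 : K.r true (K.r true q) = K.r (!u.2) (K.rv u.1) := congrArg Prod.fst hu
    have h2 : true = !u.2 := congrArg Prod.snd hu
    rw [← h2] at h1
    have h3 := K.r_inj true h1
    have h4 : u.1 = K.rv (K.nx q) := by
      have h5 : K.nx q = K.rv u.1 := h3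
      rw [h5, K.rv_rv]
    rw [← h4]
    exact hcu.2

/-- the requests at one half-edge -/
noncomputable def rq (K : KM n) (h : K.H) : ℤ :=
  ((K.v4 h).toNat : ℤ) + (((K.p4 (h, true)).toNat : ℤ) + ((K.p4 (h, false)).toNat : ℤ))

theorem s4_nx {h : K.H} (hs : K.s4 h = true) : K.s4 (K.nx h) = true := by
  unfold KM.s4 at hs ⊢
  simp only [Bool.and_eq_true, decide_eq_true_eq] at hs ⊢
  obtain ⟨⟨⟨⟨hm, h1⟩, h2⟩, h3⟩, h4⟩ := hs
  refine ⟨⟨⟨⟨by rw [K.m_nx]; exact hm, h2⟩, ?_⟩, ?_⟩, ?_⟩
  · rw [← op2' hm]; exact h3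
  · rw [K.op_nx, op2' hm, nx3' hm]; exact h4
  · rw [Equiv.symm_apply_apply]; exact h1

/-- the constraints at an S4 vertex, in one position -/
theorem p4_s4 {h : K.H} {o : Bool} (hPF : StPayF) (hp : K.p4 (h, o) = true) : K.s4 h = true := by
  unfold KM.p4 at hp
  simp only [Bool.and_eq_true] at hp
  obtain ⟨⟨hpay, h1⟩, h2⟩ := hp
  obtain ⟨f1, f2, -⟩ := hPF n K (h, o) hpay
  have hm : K.m h = 2 := f1
  have hd : K.Dd h = true := f2
  have d1 : K.Dd (K.nx h) = true := by cases o; exacts [h2, h1]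
  have d2 : K.Dd (K.nx.symm h) = true := by cases o; exacts [h1, h2]
  have d3 : K.Dd (K.op h) = true := by
    rw [K.Dd_iff true]
    constructor
    · have h2 : K.tri (K.nx.symm (K.nx.symm h)) = true := K.Dd_tr (o := false) d2
      rw [symm_symm' hm, ← op2' hm] at h2
      exact h2
    · have := K.Dd_tr (o := true) (h := K.nx h) d1
      show K.tri (K.nx.symm (K.op h)) = true
      rw [op2' hm, Equiv.symm_apply_apply]
      exact this
  unfold KM.s4
  rw [hd, d1, d2, d3]; simp [hm]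


/-- outer edge behind `k`: from the neighbour of `k` to the neighbour of `nx k` -/
def oe (K : KM n) (k : K.H) : Bool := K.Dd (K.nx.symm (K.rv k))

/-- the neighbour of `k` has multiplicity at least four -/
def xx (K : KM n) (k : K.H) : Bool := decide (4 ≤ K.m (K.rv k))

theorem s4_facts {k : K.H} (hs : K.s4 k = true) : K.m k = 2 ∧ K.Dd k = true ∧
    K.Dd (K.nx k) = true ∧ K.Dd (K.nx (K.nx k)) = true ∧ K.Dd (K.nx.symm k) = true := by
  unfold KM.s4 at hs
  simp only [Bool.and_eq_true, decide_eq_true_eq] at hs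
  obtain ⟨⟨⟨⟨hm, h1⟩, h2⟩, h3⟩, h4⟩ := hs
  exact ⟨hm, h1, h2, by rw [← op2' hm]; exact h3, h4⟩

theorem oe_symm {k : K.H} (hs : K.s4 k = true) : K.Dd (K.nx (K.rv k)) = oe K (K.nx.symm k) := by
  obtain ⟨hm, h1, h2, h3, h4⟩ := s4_facts hs
  have := third_true (K := K) (k := K.nx.symm k) (K.Dd_tr (o := true) h4)
  rw [Equiv.apply_symm_apply] at this
  unfold oe
  rw [← this, K.Dd_rv]

theorem nb3 (hNS : StNS) {k : K.H} (hs : K.s4 k = true) : 3 ≤ K.m (K.rv k) := by
  obtain ⟨hm, h1, -⟩ := s4_facts hs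
  have := Dd_simple hNS hm h1
  have := K.two_le (K.rv k)
  omega

theorem spc_intro (hNS : StNS) {k : K.H} (hs : K.s4 k = true) (hv : K.vf (K.rv k) = true)
    (c : (!(xx K (K.nx k)) && !(xx K (K.nx (K.nx k))) && !(xx K (K.nx.symm k)) &&
      oe K (K.nx k) && oe K (K.nx (K.nx k))) = true) : K.spc (K.rv k) = true := by
  obtain ⟨hm, h1, h2, h3, h4⟩ := s4_facts hs
  have hs1 := s4_nx hs
  have hs2 := s4_nx hs1
  have hs3 := s4_nx hs2
  rw [nx3' hm] at hs3
  have g1 := nb3 hNS hs1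
  have g2 := nb3 hNS hs2
  have g3 := nb3 hNS hs3
  simp only [xx, Bool.and_eq_true, Bool.not_eq_true', decide_eq_false_iff_not] at c
  obtain ⟨⟨⟨⟨c1, c2⟩, c3⟩, c4⟩, c5⟩ := c
  unfold KM.spc
  rw [K.rv_rv, hv, hs, op2' hm]
  have e1 : K.m (K.rv (K.nx k)) = 3 := by omega
  have e2 : K.m (K.rv (K.nx (K.nx k))) = 3 := by omega
  have e3 : K.m (K.rv (K.nx.symm k)) = 3 := by omega
  unfold oe at c4 c5
  rw [e1, e2, e3, c4, c5]
  rfl

theorem p_true (hPF : StPayF) {k : K.H} (hp : K.p4 (k, true) = true) :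
    xx K k = false ∧ oe K k = true := by
  have hpay : K.pay (k, true) = true := by
    unfold KM.p4 at hp; simp only [Bool.and_eq_true] at hp; exact hp.1.1
  obtain ⟨f1, f2, f3, f4, -⟩ := hPF n K (k, true) hpay
  have f3' : K.m (K.rv k) = 3 := f3
  refine ⟨?_, f4⟩
  unfold xx; rw [f3']; rfl

theorem p_false (hPF : StPayF) {k : K.H} (hp : K.p4 (k, false) = true) :
    xx K k = false ∧ oe K (K.nx.symm k) = true := by
  have hs := p4_s4 hPF hp
  have hpay : K.pay (k, false) = true := by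
    unfold KM.p4 at hp; simp only [Bool.and_eq_true] at hp; exact hp.1.1
  obtain ⟨f1, f2, f3, f4, -⟩ := hPF n K (k, false) hpay
  have f3' : K.m (K.rv k) = 3 := f3
  refine ⟨?_, ?_⟩
  · unfold xx; rw [f3']; rfl
  · rw [← oe_symm hs]; exact f4

theorem fg_facts {h : K.H} (hf : K.fg h = true) : K.vf h = true ∧ K.spc h = false ∧
    K.clm true h = true ∧ K.clm false h = true := by
  unfold KM.fg at hf
  simp only [Bool.and_eq_true, Bool.not_eq_true'] at hf
  exact ⟨hf.1.1.1.1.1, hf.1.1.1.1.2, hf.1.1.1.2, hf.1.1.2⟩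

/-- data of a payer whose walk ends at the next vertex -/
theorem p_true4 (hPF : StPayF) {k : K.H} (hp : K.p4 (k, true) = true)
    (hx : xx K (K.nx k) = true) :
    K.fg (K.rv (K.nx k)) = true ∧ K.Lead (k, true) (K.sl true (K.rv (K.nx k))) ∧
      K.nc (k, true) = true := by
  have hpay : K.pay (k, true) = true := by
    unfold KM.p4 at hp; simp only [Bool.and_eq_true] at hp; exact hp.1.1
  obtain ⟨f1, f2, f3, f4, -⟩ := hPF n K (k, true) hpay
  exact pay_true f1 f2 hpay f3 f4 (by simpa [xx] using hx)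

theorem p_false4 (hPF : StPayF) {k : K.H} (hp : K.p4 (k, false) = true)
    (hx : xx K (K.nx.symm k) = true) :
    K.fg (K.rv (K.nx.symm k)) = true ∧ K.Lead (k, false) (K.sl false (K.rv (K.nx.symm k))) ∧
      (∀ s', K.Lead s' (K.sl true (K.rv (K.nx.symm k))) → K.nc s' = false) := by
  have hpay : K.pay (k, false) = true := by
    unfold KM.p4 at hp; simp only [Bool.and_eq_true] at hp; exact hp.1.1
  obtain ⟨f1, f2, f3, f4, -⟩ := hPF n K (k, false) hpay
  exact pay_false f1 f2 hpay f3 f4 (by simpa [xx] using hx)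

theorem v4_facts {k : K.H} (hv : K.v4 k = true) : K.vf (K.rv k) = true ∧ K.spc (K.rv k) = false ∧
    K.s4 k = true := by
  unfold KM.v4 KM.ims at hv
  simp only [Bool.and_eq_true, Bool.not_eq_true'] at hv
  exact ⟨hv.1.1.1, hv.1.2, hv.2⟩

/-- constraint on `v4` -/
theorem con_v (hNS : StNS) {k : K.H} (hs : K.s4 k = true)
    (c : (!(xx K k) || (!(xx K (K.nx k)) && !(xx K (K.nx (K.nx k))) && !(xx K (K.nx.symm k)) &&
      oe K (K.nx k) && oe K (K.nx (K.nx k)))) = true) : (K.v4 k).toNat = 0 := by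
  cases hv : K.v4 k
  · rfl
  · exfalso
    obtain ⟨f1, f2, f3⟩ := v4_facts hv
    rw [Bool.or_eq_true] at c
    rcases c with c | c
    · have := vf_m f1
      unfold xx at c
      rw [this] at c
      exact absurd c (by simp)
    · rw [spc_intro hNS hs f1 c] at f2
      exact absurd f2 (by simp)

theorem con_a1 (hPF : StPayF) {k : K.H} (c : (xx K k || !(oe K k)) = true) :
    (K.p4 (k, true)).toNat = 0 := by
  cases hp : K.p4 (k, true)
  · rfl
  · exfalso
    obtain ⟨f1, f2⟩ := p_true hPF hp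
    rw [f1, f2] at c
    exact absurd c (by simp)

theorem con_b1 (hPF : StPayF) {k : K.H} (c : (xx K k || !(oe K (K.nx.symm k))) = true) :
    (K.p4 (k, false)).toNat = 0 := by
  cases hp : K.p4 (k, false)
  · rfl
  · exfalso
    obtain ⟨f1, f2⟩ := p_false hPF hp
    rw [f1, f2] at c
    exact absurd c (by simp)

/-- a payer into a vertex of multiplicity four: neighbours -/
theorem con_a2 (hNS : StNS) (hPF : StPayF) {k : K.H} (hs : K.s4 k = true)
    (c : (xx K (K.nx k) && (xx K (K.nx (K.nx k)) || (!(xx K (K.nx (K.nx k))) &&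
      !(xx K (K.nx.symm k)) && !(xx K k) && oe K (K.nx (K.nx k)) && oe K (K.nx.symm k)))) = true) :
    (K.p4 (k, true)).toNat = 0 := by
  cases hp : K.p4 (k, true)
  · rfl
  · exfalso
    obtain ⟨hm, h1, h2, h3, h4⟩ := s4_facts hs
    rw [Bool.and_eq_true] at c
    obtain ⟨c1, c2⟩ := c
    obtain ⟨g1, g2, g3⟩ := p_true4 hPF hp c1
    obtain ⟨l1, l2, l3, l4⟩ := fg_facts g1
    rw [Bool.or_eq_true] at c2
    rcases c2 with c2 | c2
    · have h5 := clm_false (vf_m l1) l4
      rw [third_true (K := K) (k := K.nx k) (K.Dd_tr (o := true) h2), K.m_nx] at h5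
      unfold xx at c2
      rw [decide_eq_true_eq] at c2
      omega
    · have h5 := spc_intro hNS (s4_nx hs) l1 (by
        rw [nx3' hm, Equiv.symm_apply_apply]; exact c2)
      rw [l2] at h5
      exact absurd h5 (by simp)

theorem con_b2 (hNS : StNS) (hPF : StPayF) {k : K.H} (hs : K.s4 k = true)
    (c : (xx K (K.nx.symm k) && (xx K (K.nx (K.nx k)) || (!(xx K k) &&
      !(xx K (K.nx k)) && !(xx K (K.nx (K.nx k))) && oe K k && oe K (K.nx k)))) = true) :
    (K.p4 (k, false)).toNat = 0 := by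
  cases hp : K.p4 (k, false)
  · rfl
  · exfalso
    obtain ⟨hm, h1, h2, h3, h4⟩ := s4_facts hs
    have hs3 : K.s4 (K.nx.symm k) = true := by
      rw [← nx3' hm]; exact s4_nx (s4_nx (s4_nx hs))
    rw [Bool.and_eq_true] at c
    obtain ⟨c1, c2⟩ := c
    obtain ⟨g1, g2, g3⟩ := p_false4 hPF hp c1
    obtain ⟨l1, l2, l3, l4⟩ := fg_facts g1
    rw [Bool.or_eq_true] at c2
    rcases c2 with c2 | c2
    · have h5 := clm_true (vf_m l1) l3
      rw [third_false (K := K) (k := K.nx.symm k) (K.Dd_tr (o := false) h4), K.m_symm,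
        symm_symm' hm] at h5
      unfold xx at c2
      rw [decide_eq_true_eq] at c2
      omega
    · have h5 := spc_intro hNS hs3 l1 (by
        rw [Equiv.apply_symm_apply, symm_symm' hm]; exact c2)
      rw [l2] at h5
      exact absurd h5 (by simp)

/-- two payers of one group -/
theorem con_u (hPF : StPayF) {k : K.H} (hx : xx K k = true) :
    (K.p4 (K.nx.symm k, true)).toNat + (K.p4 (K.nx k, false)).toNat ≤ 1 := by
  cases hp : K.p4 (K.nx.symm k, true)
  · cases K.p4 (K.nx k, false) <;> simp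
  · cases hq : K.p4 (K.nx k, false)
    · simp
    · exfalso
      obtain ⟨g1, g2, g3⟩ := p_true4 hPF hp (by rw [Equiv.apply_symm_apply]; exact hx)
      obtain ⟨g1', g2', g3'⟩ := p_false4 hPF hq (by rw [Equiv.symm_apply_apply]; exact hx)
      rw [Equiv.symm_apply_apply] at g3'
      rw [Equiv.apply_symm_apply] at g2
      rw [g3' _ g2] at g3
      exact absurd g3 (by simp)

theorem con_w (hNS : StNS) {k : K.H} (hs : K.s4 k = true)
    (c : (!(xx K k) && !(xx K (K.nx k)) && !(xx K (K.nx (K.nx k))) && !(xx K (K.nx.symm k)) &&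
      oe K k && oe K (K.nx (K.nx k))) = true) : False := by
  obtain ⟨hm, h1, h2, h3, h4⟩ := s4_facts hs
  have hs1 := s4_nx hs
  have hs2 := s4_nx hs1
  have hs3 := s4_nx hs2
  rw [nx3' hm] at hs3
  have g0 := nb3 hNS hs
  have g1 := nb3 hNS hs1
  have g2 := nb3 hNS hs2
  have g3 := nb3 hNS hs3
  simp only [xx, Bool.and_eq_true, Bool.not_eq_true', decide_eq_false_iff_not] at c
  obtain ⟨⟨⟨⟨⟨c0, c1⟩, c2⟩, c3⟩, c4⟩, c5⟩ := c
  exact outer_opp hm h1 h2 h3 h4 (by omega) (by omega) (by omega) (by omega) c4 c5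

theorem bool_le_one (b : Bool) : b.toNat ≤ 1 := by cases b <;> simp

theorem orbit_s4 (hNS : StNS) (hPF : StPayF) {k : K.H} (hs : K.s4 k = true) :
    rq K k + rq K (K.nx k) + rq K (K.nx (K.nx k)) + rq K (K.nx.symm k) ≤ 4 := by
  obtain ⟨hm, -⟩ := s4_facts hs
  have hm1 : K.m (K.nx k) = 2 := by rw [K.m_nx]; exact hm
  have hm2 : K.m (K.nx (K.nx k)) = 2 := by rw [K.m_nx]; exact hm1
  have hm3 : K.m (K.nx.symm k) = 2 := by rw [K.m_symm]; exact hm
  have hs1 := s4_nx hs
  have hs2 := s4_nx hs1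
  have hs3 := s4_nx hs2
  rw [nx3' hm] at hs3
  have e4 : K.nx (K.nx.symm k) = k := Equiv.apply_symm_apply _ _
  have e5 : K.nx.symm (K.nx (K.nx k)) = K.nx k := Equiv.symm_apply_apply _ _
  have e6 : K.nx.symm (K.nx k) = k := Equiv.symm_apply_apply _ _
  have e7 := symm_symm' (K := K) hm
  have e8 := nx3' (K := K) hm
  have main := count4 (xx K k) (xx K (K.nx k)) (xx K (K.nx (K.nx k))) (xx K (K.nx.symm k))
    (oe K k) (oe K (K.nx k)) (oe K (K.nx (K.nx k))) (oe K (K.nx.symm k))
    (K.p4 (k, true)).toNat (K.p4 (K.nx k, true)).toNat (K.p4 (K.nx (K.nx k), true)).toNat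
    (K.p4 (K.nx.symm k, true)).toNat
    (K.p4 (k, false)).toNat (K.p4 (K.nx k, false)).toNat (K.p4 (K.nx (K.nx k), false)).toNat
    (K.p4 (K.nx.symm k, false)).toNat
    (K.v4 k).toNat (K.v4 (K.nx k)).toNat (K.v4 (K.nx (K.nx k))).toNat (K.v4 (K.nx.symm k)).toNat
    (bool_le_one _) (bool_le_one _) (bool_le_one _) (bool_le_one _)
    (bool_le_one _) (bool_le_one _) (bool_le_one _) (bool_le_one _)
    (bool_le_one _) (bool_le_one _) (bool_le_one _) (bool_le_one _)
    (con_a1 hPF) (con_a1 hPF) (con_a1 hPF) (con_a1 hPF)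
    (con_b1 hPF) (fun c => con_b1 hPF (by rw [e6]; exact c))
    (fun c => con_b1 hPF (by rw [e5]; exact c)) (fun c => con_b1 hPF (by rw [e7]; exact c))
    (con_v hNS hs)
    (fun c => con_v hNS hs1 (by rw [e8, e6]; exact c))
    (fun c => con_v hNS hs2 (by rw [e8, e4, e5]; exact c))
    (fun c => con_v hNS hs3 (by rw [e4, e7]; exact c))
    (con_a2 hNS hPF hs)
    (fun c => con_a2 hNS hPF hs1 (by rw [e8, e6]; exact c))
    (fun c => con_a2 hNS hPF hs2 (by rw [e8, e4, e5]; exact c))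
    (fun c => con_a2 hNS hPF hs3 (by rw [e4, e7]; exact c))
    (con_b2 hNS hPF hs)
    (fun c => con_b2 hNS hPF hs1 (by rw [e6, e8]; exact c))
    (fun c => con_b2 hNS hPF hs2 (by rw [e5, e8, e4]; exact c))
    (fun c => con_b2 hNS hPF hs3 (by rw [e7, e4]; exact c))
    (con_u hPF)
    (fun c => by have := con_u hPF (k := K.nx k) c; rw [e6] at this; exact this)
    (fun c => by have := con_u hPF (k := K.nx (K.nx k)) c; rw [e5, e8] at this; exact this)
    (fun c => by have := con_u hPF (k := K.nx.symm k) c; rw [e7, e4] at this; exact this)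
    (con_w hNS hs)
    (fun c => con_w hNS hs1 (by
      rw [e8, e6]
      revert c
      cases xx K k <;> cases xx K (K.nx k) <;> cases xx K (K.nx (K.nx k)) <;>
        cases xx K (K.nx.symm k) <;> simp))
  unfold rq
  exact_mod_cast main

theorem s4_of_nx {h : K.H} (hm : K.m h = 2) (hs : K.s4 (K.nx h) = true) : K.s4 h = true := by
  have h1 := s4_nx (s4_nx (s4_nx hs))
  rw [nx3' (by rw [K.m_nx]; exact hm), Equiv.symm_apply_apply] at h1
  exact h1

theorem rq_zero (hPF : StPayF) {h : K.H} (hs : K.s4 h = false) : rq K h = 0 := by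
  unfold rq
  have h1 : K.v4 h = false := by
    cases hv : K.v4 h
    · rfl
    · rw [(v4_facts hv).2.2] at hs; exact absurd hs (by simp)
  have h2 : ∀ o, K.p4 (h, o) = false := by
    intro o
    cases hp : K.p4 (h, o)
    · rfl
    · rw [p4_s4 hPF hp] at hs; exact absurd hs (by simp)
  rw [h1, h2, h2]; rfl

theorem tS4 (hNS : StNS) (hPF : StPayF) : StS4 := by
  intro n K
  have key : ∑ h, rq K h ≤ ∑ h, ((K.s4 h).toNat : ℤ) := by
    have h1 := orbit_le K 2 (by norm_num) (rq K) (fun h => ((K.s4 h).toNat : ℤ)) (by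
      intro h hm
      have s1 : ∀ f : K.H → ℤ, ∑ k ∈ range (2 * 2), f (K.nx^[k] h) =
          f h + f (K.nx h) + f (K.nx (K.nx h)) + f (K.nx.symm h) := by
        intro f
        rw [← nx3' hm]
        simp [Finset.sum_range_succ]
      rw [s1 (rq K)]
      refine le_trans ?_ (le_of_eq (s1 (fun h => ((K.s4 h).toNat : ℤ))).symm)
      show rq K h + rq K (K.nx h) + rq K (K.nx (K.nx h)) + rq K (K.nx.symm h) ≤
        ((K.s4 h).toNat : ℤ) + ((K.s4 (K.nx h)).toNat : ℤ) + ((K.s4 (K.nx (K.nx h))).toNat : ℤ) +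
          ((K.s4 (K.nx.symm h)).toNat : ℤ)
      cases hs : K.s4 h
      · have hm1 : K.m (K.nx h) = 2 := by rw [K.m_nx]; exact hm
        have hm2 : K.m (K.nx (K.nx h)) = 2 := by rw [K.m_nx]; exact hm1
        have hs1 : K.s4 (K.nx h) = false := by
          cases h1 : K.s4 (K.nx h)
          · rfl
          · rw [s4_of_nx hm h1] at hs; exact absurd hs (by simp)
        have hs2 : K.s4 (K.nx (K.nx h)) = false := by
          cases h1 : K.s4 (K.nx (K.nx h))
          · rfl
          · rw [s4_of_nx hm1 h1] at hs1; exact absurd hs1 (by simp)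
        have hs3 : K.s4 (K.nx.symm h) = false := by
          cases h1 : K.s4 (K.nx.symm h)
          · rfl
          · rw [← nx3' hm] at h1
            rw [s4_of_nx hm2 h1] at hs2; exact absurd hs2 (by simp)
        rw [rq_zero hPF hs, rq_zero hPF hs1, rq_zero hPF hs2, rq_zero hPF hs3, hs1, hs2, hs3]
        simp
      · have hs1 := s4_nx hs
        have hs2 := s4_nx hs1
        have hs3 := s4_nx hs2
        rw [nx3' hm] at hs3
        rw [hs1, hs2, hs3]
        have := orbit_s4 hNS hPF hs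
        simpa using this)
    rw [← Finset.sum_filter_add_sum_filter_not univ (fun x => K.m x = 2) (rq K),
      ← Finset.sum_filter_add_sum_filter_not univ (fun x => K.m x = 2)
        (fun h => ((K.s4 h).toNat : ℤ))]
    refine add_le_add h1 (Finset.sum_le_sum (fun x hx => ?_))
    simp only [mem_filter, mem_univ, true_and] at hx
    have h0 : K.s4 x = false := by unfold KM.s4; simp [hx]
    rw [rq_zero hPF h0, h0]
    simp
  have e : ∑ h, rq K h = ((∑ h, (K.v4 h).toNat +
      ∑ h, ((K.p4 (h, true)).toNat + (K.p4 (h, false)).toNat) : ℕ) : ℤ) := by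
    push_cast
    unfold rq
    rw [Finset.sum_add_distrib]
  rw [e] at key
  exact_mod_cast key

end Pool.Agent.Helper77.KBL
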