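import Pool.Agent.Helper23.KB.Defs

/-!
# Basic facts on the half-edge model
-/

namespace Pool.Agent.Helper77.KBL

open Pool.Agent.Helper23.KB

variable {n : ℕ} (K : KM n)

/-- rotation in the direction `o` -/
def r (o : Bool) (h : K.H) : K.H := if o then K.nx h else K.nx.symm h

/-- the sector on the side `o` of `h` is a marked triangle -/
def tr (o : Bool) (h : K.H) : Bool := if o then K.tri h else K.tri (K.nx.symm h)

@[simp] theorem r_true (h : K.H) : r K true h = K.nx h := rfl
@[simp] theorem r_false (h : K.H) : r K false h = K.nx.symm h := rfl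
@[simp] theorem tr_true (h : K.H) : tr K true h = K.tri h := rfl
@[simp] theorem tr_false (h : K.H) : tr K false h = K.tri (K.nx.symm h) := rfl

theorem r_r (o : Bool) (h : K.H) : r K (!o) (r K o h) = h := by
  cases o <;> simp

theorem r_r' (o : Bool) (h : K.H) : r K o (r K (!o) h) = h := by
  cases o <;> simp

theorem vt_symm (h : K.H) : K.vt (K.nx.symm h) = K.vt h := by
  have := K.vt_nx (K.nx.symm h)
  simpa using this.symm

theorem m_symm (h : K.H) : K.m (K.nx.symm h) = K.m h := by
  have := K.m_nx (K.nx.symm h)
  simpa using this.symm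

theorem vt_r (o : Bool) (h : K.H) : K.vt (r K o h) = K.vt h := by
  cases o
  · exact vt_symm K h
  · exact K.vt_nx h

theorem m_r (o : Bool) (h : K.H) : K.m (r K o h) = K.m h := by
  cases o
  · exact m_symm K h
  · exact K.m_nx h

theorem vt_iter (k : ℕ) (h : K.H) : K.vt (K.nx^[k] h) = K.vt h := by
  induction k with
  | zero => rfl
  | succ k ih => rw [Function.iterate_succ_apply', K.vt_nx, ih]

theorem m_iter (k : ℕ) (h : K.H) : K.m (K.nx^[k] h) = K.m h := by
  induction k with
  | zero => rfl
  | succ k ih => rw [Function.iterate_succ_apply', K.m_nx, ih]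

/-- the opposite half-edge -/
def op (h : K.H) : K.H := K.nx^[K.m h] h

theorem m_op (h : K.H) : K.m (op K h) = K.m h := m_iter K _ h
theorem vt_op (h : K.H) : K.vt (op K h) = K.vt h := vt_iter K _ h
theorem ln_op (h : K.H) : K.ln (op K h) = K.ln h := K.ln_op h
theorem dr_op (h : K.H) : K.dr (op K h) = !(K.dr h) := K.dr_op h

theorem op_op (h : K.H) : op K (op K h) = h := by
  unfold op
  rw [m_iter, ← Function.iterate_add_apply, ← two_mul]
  exact K.per h

theorem op_nx (h : K.H) : op K (K.nx h) = K.nx (op K h) := by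
  unfold op
  rw [K.m_nx, ← Function.iterate_succ_apply, ← Function.iterate_succ_apply' K.nx]

theorem op_symm (h : K.H) : op K (K.nx.symm h) = K.nx.symm (op K h) := by
  have := op_nx K (K.nx.symm h)
  rw [Equiv.apply_symm_apply] at this
  rw [this, Equiv.symm_apply_apply]

theorem op_r (o : Bool) (h : K.H) : op K (r K o h) = r K o (op K h) := by
  cases o
  · exact op_symm K h
  · exact op_nx K h

theorem op_ne (h : K.H) : op K h ≠ h := by
  intro e
  have := dr_op K h
  rw [e] at this
  cases hd : K.dr h <;> simp [hd] at this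

/-- two half-edges of one vertex and one line are equal or opposite -/
theorem same_line_iter {h : K.H} {k : ℕ} (hk : K.ln (K.nx^[k] h) = K.ln h) :
    K.nx^[k] h = h ∨ K.nx^[k] h = op K h := by
  have hm := K.two_le h
  obtain ⟨q, s, hs, rfl⟩ : ∃ q s, s < K.m h ∧ k = s + q * K.m h :=
    ⟨k / K.m h, k % K.m h, Nat.mod_lt _ (by omega), by rw [mul_comm]; exact (Nat.mod_add_div _ _).symm⟩
  have hq : ∀ q : ℕ, K.nx^[q * K.m h] h = h ∨ K.nx^[q * K.m h] h = op K h := by
    intro q
    induction q with
    | zero => left; simp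
    | succ q ih =>
      rw [Nat.succ_mul, Nat.add_comm, Function.iterate_add_apply]
      rcases ih with e | e
      · right; rw [e]; rfl
      · left; rw [e]
        have := op_op K h
        unfold op at this ⊢
        rw [m_iter] at this
        exact this
  rw [Function.iterate_add_apply] at hk ⊢
  have h0 : s = 0 := by
    by_contra hs0
    rcases hq q with e | e
    · rw [e] at hk
      exact K.ln_ne h s (by omega) hs hk
    · rw [e] at hk
      exact K.ln_ne (op K h) s (by omega) (by rw [m_op]; exact hs) (by rw [hk, ln_op])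
  subst h0
  exact hq q

/-! ### triangles -/

theorem tr_r {o : Bool} {h : K.H} (ht : tr K o h = true) : tr K (!o) (r K o h) = true := by
  cases o
  · simpa using ht
  · simpa using ht

theorem tr_r_eq (o : Bool) (h : K.H) : tr K (!o) (r K o h) = tr K o h := by
  cases o <;> simp

theorem tri_rv {h : K.H} (ht : K.tri (K.nx.symm h) = true) :
    K.tri (K.rv h) = true ∧ K.rv h ≠ h := by
  have h1 := K.tri_face _ ht
  have h2 := K.tri_face _ h1
  have h3 := K.tri_three _ ht
  have e : K.nx.symm (K.rv (K.nx.symm (K.rv (K.nx.symm h)))) = K.rv h := by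
    have h4 : K.rv (K.nx.symm (K.rv (K.nx.symm (K.rv (K.nx.symm h))))) = h := by
      have := congrArg K.nx h3
      rwa [Equiv.apply_symm_apply, Equiv.apply_symm_apply] at this
    rw [← h4, K.rv_rv]
    rw [h4]
  rw [e] at h2
  refine ⟨h2, ?_⟩
  intro hr
  rw [hr] at h2
  exact K.tri_ray h h2 hr

theorem tr_rv {o : Bool} {h : K.H} (ht : tr K o h = true) : tr K (!o) (K.rv h) = true := by
  cases o
  · exact (tri_rv K ht).1
  · exact K.tri_face h ht

theorem tr_rv_eq {o : Bool} {h : K.H} : tr K (!o) (K.rv h) = tr K o h := by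
  cases h1 : tr K o h
  · cases h2 : tr K (!o) (K.rv h)
    · rfl
    · have := tr_rv K h2
      rw [Bool.not_not, K.rv_rv, h1] at this
      exact absurd this (by simp)
  · exact tr_rv K h1

theorem tr_nr {o : Bool} {h : K.H} (ht : tr K o h = true) : K.rv h ≠ h := by
  cases o
  · exact (tri_rv K ht).2
  · exact K.tri_ray h ht

/-- the third corner of a triangle, general form -/
theorem tr_three {o : Bool} {h : K.H} (ht : tr K o h = true) :
    r K (!o) (K.rv (r K (!o) (K.rv (r K (!o) (K.rv h))))) = h := by
  cases o
  · have h1 : tr K true (K.rv h) = true := tr_rv K ht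
    have h3 := K.tri_three _ (show K.tri (K.nx.symm h) = true from ht)
    have h4 : K.rv (K.nx.symm (K.rv (K.nx.symm (K.rv (K.nx.symm h))))) = h := by
      have := congrArg K.nx h3
      rwa [Equiv.apply_symm_apply, Equiv.apply_symm_apply] at this
    simp only [Bool.not_false, r_true]
    have h5 : K.rv h = K.nx.symm (K.rv (K.nx.symm (K.rv (K.nx.symm h)))) := by
      rw [← h4, K.rv_rv]
      rw [h4]
    rw [h5, Equiv.apply_symm_apply, K.rv_rv, Equiv.apply_symm_apply, K.rv_rv,
      Equiv.apply_symm_apply]
  · exact K.tri_three h ht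

/-- the third vertex of the triangle seen from both ends -/
theorem tr_apex {o : Bool} {h : K.H} (ht : tr K o h = true) :
    r K (!o) (K.rv (r K (!o) (K.rv h))) = K.rv (r K o h) := by
  have h3 := tr_three K ht
  have := congrArg (fun x => K.rv (r K o x)) h3
  simp only [r_r'] at this
  rw [K.rv_rv] at this
  exact this

theorem tr_apex_vt {o : Bool} {h : K.H} (ht : tr K o h = true) :
    K.vt (K.rv (r K (!o) (K.rv h))) = K.vt (K.rv (r K o h)) := by
  rw [← tr_apex K ht, vt_r]

end Pool.Agent.Helper77.KBL
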