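import Pool.Agent.Helper77.KBL.Basic

/-!
# The line lemma (parity of the run ends)
-/

namespace Pool.Agent.Helper77.KBL

open Pool.Agent.Helper23.KB Finset

variable {n : ℕ} (K : KM n)

/-- exactly one side of the edge is a triangle -/
def isS (h : K.H) : Prop := tr K true h ≠ tr K false h

/-- simple vertex with exactly two triangles, which are opposite -/
def isO (h : K.H) : Prop :=
  K.m h = 2 ∧ K.tri (K.nx h) ≠ K.tri h ∧ K.tri (K.nx.symm h) ≠ K.tri h ∧
    K.tri (K.nx (K.nx h)) = K.tri h

/-- the sector of `s` is the triangle of a wedge -/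
def wed (s : K.H) : Prop :=
  K.m s = 2 ∧ K.tri s = true ∧ K.rv (K.nx (K.nx s)) = K.nx (K.nx s) ∧
    K.rv (K.nx.symm s) = K.nx.symm s

/-- wedge: simple vertex with one triangle, the two half-edges opposite to it are rays -/
def isW (h : K.H) : Prop :=
  wed K h ∨ wed K (K.nx h) ∨ wed K (K.nx (K.nx h)) ∨ wed K (K.nx.symm h)

def costly (h : K.H) : Prop := isO K h ∨ isW K h

/-- single half-edge at a vertex which is not costly -/
def PE (h : K.H) : Prop := isS K h ∧ ¬ costly K h

/-- the colour of the triangle of a single half-edge -/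
def tc (h : K.H) : Bool := (K.col h == K.tri h)

/-- the line goes on at the vertex of `h` by a single edge of the other colour, leading to a
costly vertex -/
def outw (h : K.H) : Prop :=
  isS K (op K h) ∧ tc K (op K h) ≠ tc K h ∧ costly K (K.rv (op K h))

/-- half-edges of boosted edges -/
def isB (h : K.H) : Prop := PE K h ∧ PE K (K.rv h) ∧ outw K h ∧ outw K (K.rv h)

section facts

variable {K}

theorem nx4 {h : K.H} (hm : K.m h = 2) : K.nx (K.nx (K.nx (K.nx h))) = h := by
  have := K.per h
  rw [hm] at this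
  exact this

theorem nx3 {h : K.H} (hm : K.m h = 2) : K.nx (K.nx (K.nx h)) = K.nx.symm h := by
  rw [Equiv.eq_symm_apply]
  exact nx4 hm

theorem op2 {h : K.H} (hm : K.m h = 2) : op K h = K.nx (K.nx h) := by
  unfold op; rw [hm]; rfl

theorem isO_nx {h : K.H} (hO : isO K h) : isO K (K.nx h) := by
  obtain ⟨hm, h1, h2, h3⟩ := hO
  refine ⟨by rw [K.m_nx]; exact hm, ?_, ?_, ?_⟩
  · rw [h3]; exact h1.symm
  · rw [Equiv.symm_apply_apply]; exact h1.symm
  · rw [nx3 hm]
    cases ha : K.tri (K.nx.symm h) <;> cases hb : K.tri h <;> cases hc : K.tri (K.nx h) <;>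
      simp_all

theorem isO_op {h : K.H} (hO : isO K h) : isO K (op K h) := by
  rw [op2 hO.1]; exact isO_nx (isO_nx hO)

theorem isW_m {h : K.H} (hW : isW K h) : K.m h = 2 := by
  rcases hW with h1 | h1 | h1 | h1
  · exact h1.1
  · rw [← K.m_nx]; exact h1.1
  · rw [← K.m_nx, ← K.m_nx]; exact h1.1
  · rw [← m_symm]; exact h1.1

theorem isW_nx {h : K.H} (hW : isW K h) : isW K (K.nx h) := by
  have hm := isW_m hW
  rcases hW with h1 | h1 | h1 | h1
  · right; right; right; rwa [Equiv.symm_apply_apply]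
  · left; exact h1
  · right; left; exact h1
  · right; right; left; rwa [nx3 hm]

theorem isW_op {h : K.H} (hW : isW K h) : isW K (op K h) := by
  rw [op2 (isW_m hW)]; exact isW_nx (isW_nx hW)

theorem costly_m {h : K.H} (hc : costly K h) : K.m h = 2 := by
  rcases hc with h1 | h1
  · exact h1.1
  · exact isW_m h1

theorem costly_op {h : K.H} (hc : costly K h) : costly K (op K h) := by
  rcases hc with h1 | h1
  · exact Or.inl (isO_op h1)
  · exact Or.inr (isW_op h1)

theorem costly_op_iff {h : K.H} : costly K (op K h) ↔ costly K h := by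
  refine ⟨fun hc => ?_, costly_op⟩
  have := costly_op hc
  rwa [op_op] at this

theorem isS_nr {h : K.H} (hS : isS K h) : K.rv h ≠ h := by
  unfold isS at hS
  cases h1 : tr K true h
  · cases h2 : tr K false h
    · rw [h1, h2] at hS; exact absurd rfl hS
    · exact tr_nr K h2
  · exact tr_nr K h1

theorem isS_rv {h : K.H} (hS : isS K h) : isS K (K.rv h) := by
  unfold isS at *
  have h1 := tr_rv_eq K (o := true) (h := h)
  have h2 := tr_rv_eq K (o := false) (h := h)
  rw [Bool.not_true] at h1
  rw [Bool.not_false] at h2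
  rw [h1, h2]
  exact hS.symm

theorem isS_rv_iff {h : K.H} : isS K (K.rv h) ↔ isS K h := by
  refine ⟨fun hS => ?_, isS_rv⟩
  have := isS_rv hS
  rwa [K.rv_rv] at this

theorem tc_rv {h : K.H} (hS : isS K h) : tc K (K.rv h) = tc K h := by
  unfold tc
  have hc := K.col_rv h (isS_nr hS)
  have hc2 := K.col_nx (K.nx.symm (K.rv h))
  rw [Equiv.apply_symm_apply, hc] at hc2
  rw [hc2]
  have h1 := tr_rv_eq K (o := false) (h := h)
  rw [Bool.not_false] at h1
  unfold isS at hS
  have h1' : K.tri (K.rv h) = K.tri (K.nx.symm h) := h1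
  have hS' : K.tri h ≠ K.tri (K.nx.symm h) := hS
  rw [h1']
  cases K.col h <;> cases ha : K.tri h <;> cases hb : K.tri (K.nx.symm h) <;> simp_all

theorem isS_op_of_O {h : K.H} (hO : isO K h) : isS K (op K h) := by
  have := isO_op hO
  unfold isS
  exact fun e => this.2.2.1 e.symm

theorem isS_of_O {h : K.H} (hO : isO K h) : isS K h := fun e => hO.2.2.1 e.symm

theorem col_op2 {h : K.H} (hm : K.m h = 2) : K.col (op K h) = K.col h := by
  rw [op2 hm, K.col_nx, K.col_nx, Bool.not_not]

theorem tc_op_of_O {h : K.H} (hO : isO K h) : tc K (op K h) = tc K h := by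
  unfold tc
  rw [col_op2 hO.1, op2 hO.1, hO.2.2.2]

end facts

/-! ### parity -/

theorem even_card_of_invol {α : Type} [DecidableEq α] (s : Finset α) (f : α → α)
    (h1 : ∀ a ∈ s, f a ∈ s) (h2 : ∀ a ∈ s, f a ≠ a) (h3 : ∀ a ∈ s, f (f a) = a) :
    Even s.card := by
  have h : ∑ _a ∈ s, (1 : ZMod 2) = 0 := by
    apply Finset.sum_involution (fun a _ => f a)
    · intro a _; decide
    · intro a ha _; exact h2 a ha
    · intro a ha; exact h1 a ha
    · intro a ha; exact h3 a ha
  rw [Finset.sum_const, nsmul_eq_mul, mul_one] at h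
  exact (ZMod.natCast_eq_zero_iff_even).1 h


section wedges

variable {K}

theorem tri_ray' {h : K.H} (hr : K.rv h = h) : K.tri h = false ∧ K.tri (K.nx.symm h) = false := by
  constructor
  · cases h1 : K.tri h
    · rfl
    · exact absurd hr (tr_nr K (o := true) h1)
  · cases h1 : K.tri (K.nx.symm h)
    · rfl
    · exact absurd hr (tr_nr K (o := false) h1)

theorem not_OW {h : K.H} (hO : isO K h) (hW : isW K h) : False := by
  -- at a wedge the four sectors are: one triangle, three empty
  have key : ∀ s : K.H, wed K s → isO K s → False := by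
    intro s hs hOs
    have h1 := (tri_ray' hs.2.2.1).1
    have h2 := hs.2.1
    rw [hOs.2.2.2, h2] at h1
    exact absurd h1 (by simp)
  rcases hW with h1 | h1 | h1 | h1
  · exact key _ h1 hO
  · exact key _ h1 (isO_nx hO)
  · exact key _ h1 (isO_nx (isO_nx hO))
  · refine key _ h1 ?_
    rw [← nx3 hO.1]
    exact isO_nx (isO_nx (isO_nx hO))

/-- the opposite of a wedge ray is single -/
theorem isS_op_of_ray {h : K.H} (hW : isW K h) (hr : K.rv h = h) : isS K (op K h) := by
  have hm := isW_m hW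
  rw [op2 hm]
  rcases hW with h1 | h1 | h1 | h1
  · exact absurd hr (tr_nr K (o := true) h1.2.1)
  · intro e
    have e' : K.tri (K.nx (K.nx h)) = K.tri (K.nx.symm (K.nx (K.nx h))) := e
    rw [Equiv.symm_apply_apply, h1.2.1] at e'
    have h2 := (tri_ray' h1.2.2.1).2
    rw [Equiv.symm_apply_apply, e'] at h2
    exact absurd h2 (by simp)
  · intro e
    have e' : K.tri (K.nx (K.nx h)) = K.tri (K.nx.symm (K.nx (K.nx h))) := e
    rw [h1.2.1, Equiv.symm_apply_apply] at e'
    have h2 := (tri_ray' h1.2.2.2).1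
    rw [Equiv.symm_apply_apply, ← e'] at h2
    exact absurd h2 (by simp)
  · exact absurd hr (tr_nr K (o := false) h1.2.1)

/-- a single half-edge of a wedge: its opposite is a ray, and the colour of the wedge -/
theorem wedge_single {h : K.H} (hW : isW K h) (hS : isS K h) :
    K.rv (op K h) = op K h ∧ ∃ s, (s = op K h ∨ s = K.nx.symm (op K h)) ∧ K.rv s = s ∧
      K.rv (K.nx s) = K.nx s ∧ K.col s = tc K h := by
  have hm := isW_m hW
  rw [op2 hm]
  rcases hW with h1 | h1 | h1 | h1
  · refine ⟨h1.2.2.1, K.nx (K.nx h), Or.inl rfl, h1.2.2.1, ?_, ?_⟩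
    · rw [nx3 hm]; exact h1.2.2.2
    · rw [K.col_nx, K.col_nx, Bool.not_not]
      unfold tc
      rw [h1.2.1]; simp
  · exfalso
    have h2 := h1.2.2.2
    rw [Equiv.symm_apply_apply] at h2
    exact isS_nr hS h2
  · exfalso
    have h2 := h1.2.2.1
    rw [nx4 hm] at h2
    exact isS_nr hS h2
  · have e1 : K.nx (K.nx (K.nx.symm h)) = K.nx h := by rw [Equiv.apply_symm_apply]
    have e2 : K.nx.symm (K.nx.symm h) = K.nx (K.nx h) := by
      rw [← nx3 hm, Equiv.symm_apply_apply]
    have h2 := h1.2.2.1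
    have h3 := h1.2.2.2
    rw [e1] at h2
    rw [e2] at h3
    refine ⟨h3, K.nx h, Or.inr ?_, h2, h3, ?_⟩
    · rw [Equiv.symm_apply_apply]
    · rw [K.col_nx]
      have h4 : K.tri h = false := by
        have := (tri_ray' h2).2
        rwa [Equiv.symm_apply_apply] at this
      unfold tc
      rw [h4]
      cases K.col h <;> rfl

theorem PE_op {h : K.H} (hP : PE K h) (hS : isS K (op K h)) : PE K (op K h) :=
  ⟨hS, fun hc => hP.2 (costly_op_iff.1 hc)⟩

theorem isB_rv {h : K.H} (hB : isB K h) : isB K (K.rv h) :=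
  ⟨hB.2.1, by rw [K.rv_rv]; exact hB.1, hB.2.2.2, by rw [K.rv_rv]; exact hB.2.2.1⟩

end wedges

section cls

open Classical

variable (i : Fin n) (c : Bool)

theorem even_A : Even (univ.filter (fun h : K.H => K.ln h = i ∧ isS K h ∧ tc K h = c)).card := by
  apply even_card_of_invol _ K.rv
  · intro a ha
    simp only [mem_filter, mem_univ, true_and] at ha ⊢
    exact ⟨by rw [K.ln_rv]; exact ha.1, isS_rv ha.2.1, by rw [tc_rv ha.2.1]; exact ha.2.2⟩
  · intro a ha
    simp only [mem_filter, mem_univ, true_and] at ha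
    exact isS_nr ha.2.1
  · intro a _
    exact K.rv_rv a

theorem even_O : Even (univ.filter (fun h : K.H =>
    K.ln h = i ∧ isS K h ∧ tc K h = c ∧ isO K h)).card := by
  apply even_card_of_invol _ (op K)
  · intro a ha
    simp only [mem_filter, mem_univ, true_and] at ha ⊢
    exact ⟨by rw [ln_op]; exact ha.1, isS_op_of_O ha.2.2.2, by rw [tc_op_of_O ha.2.2.2]; exact ha.2.2.1,
      isO_op ha.2.2.2⟩
  · intro a _
    exact op_ne K a
  · intro a _
    exact op_op K a

theorem even_PP : Even (univ.filter (fun h : K.H =>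
    K.ln h = i ∧ tc K h = c ∧ PE K h ∧ PE K (K.rv h))).card := by
  apply even_card_of_invol _ K.rv
  · intro a ha
    simp only [mem_filter, mem_univ, true_and] at ha ⊢
    exact ⟨by rw [K.ln_rv]; exact ha.1, by rw [tc_rv ha.2.2.1.1]; exact ha.2.1, ha.2.2.2,
      by rw [K.rv_rv]; exact ha.2.2.1⟩
  · intro a ha
    simp only [mem_filter, mem_univ, true_and] at ha
    exact isS_nr ha.2.2.1.1
  · intro a _
    exact K.rv_rv a

theorem even_B : Even (univ.filter (fun h : K.H =>
    K.ln h = i ∧ isB K h ∧ tc K (op K h) = c)).card := by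
  apply even_card_of_invol _ K.rv
  · intro a ha
    simp only [mem_filter, mem_univ, true_and] at ha ⊢
    refine ⟨by rw [K.ln_rv]; exact ha.1, isB_rv ha.2.1, ?_⟩
    have h1 := ha.2.1.2.2.1.2.1
    have h2 := ha.2.1.2.2.2.2.1
    rw [tc_rv ha.2.1.1.1] at h2
    rw [← ha.2.2]
    revert h1 h2
    cases tc K (op K a) <;> cases tc K (op K (K.rv a)) <;> cases tc K a <;> simp
  · intro a ha
    simp only [mem_filter, mem_univ, true_and] at ha
    exact isS_nr ha.2.1.1.1
  · intro a _
    exact K.rv_rv a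

theorem card_W_le (hn : Even n) : (univ.filter (fun h : K.H =>
    K.ln h = i ∧ isS K h ∧ tc K h = c ∧ isW K h)).card ≤ 1 := by
  rw [Finset.card_le_one]
  intro a ha b hb
  simp only [mem_filter, mem_univ, true_and] at ha hb
  by_contra hab
  obtain ⟨ra, s, hs, hs1, hs2, hs3⟩ := wedge_single ha.2.2.2 ha.2.1
  obtain ⟨rb, s', hs', hs1', hs2', hs3'⟩ := wedge_single hb.2.2.2 hb.2.1
  have := K.wedge hn (op K a) (op K b) (by rw [ln_op, ln_op, ha.1, hb.1])
    (fun e => hab (by rw [← op_op K a, e, op_op])) ra rb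
    (by rw [m_op]; exact isW_m ha.2.2.2) (by rw [m_op]; exact isW_m hb.2.2.2)
    s s' hs hs' hs1 hs2 hs1' hs2'
  rw [hs3, hs3', ha.2.2.1, hb.2.2.1] at this
  exact this rfl

theorem split_A : (univ.filter (fun h : K.H => K.ln h = i ∧ isS K h ∧ tc K h = c)).card =
    (univ.filter (fun h : K.H => K.ln h = i ∧ isS K h ∧ tc K h = c ∧ isO K h)).card +
    (univ.filter (fun h : K.H => K.ln h = i ∧ isS K h ∧ tc K h = c ∧ isW K h)).card +
    (univ.filter (fun h : K.H => K.ln h = i ∧ tc K h = c ∧ PE K h ∧ PE K (K.rv h))).card +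
    (univ.filter (fun h : K.H => K.ln h = i ∧ tc K h = c ∧ PE K h ∧ ¬ PE K (K.rv h))).card := by
  rw [← Finset.card_union_of_disjoint, ← Finset.card_union_of_disjoint,
    ← Finset.card_union_of_disjoint]
  · congr 1
    ext h
    simp only [mem_filter, mem_univ, true_and, mem_union]
    constructor
    · rintro ⟨h1, h2, h3⟩
      by_cases hO : isO K h
      · exact Or.inl (Or.inl (Or.inl ⟨h1, h2, h3, hO⟩))
      by_cases hW : isW K h
      · exact Or.inl (Or.inl (Or.inr ⟨h1, h2, h3, hW⟩))
      have hP : PE K h := ⟨h2, fun hc => hc.elim hO hW⟩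
      by_cases hr : PE K (K.rv h)
      · exact Or.inl (Or.inr ⟨h1, h3, hP, hr⟩)
      · exact Or.inr ⟨h1, h3, hP, hr⟩
    · rintro (((h1 | h1) | h1) | h1)
      · exact ⟨h1.1, h1.2.1, h1.2.2.1⟩
      · exact ⟨h1.1, h1.2.1, h1.2.2.1⟩
      · exact ⟨h1.1, h1.2.2.1.1, h1.2.1⟩
      · exact ⟨h1.1, h1.2.2.1.1, h1.2.1⟩
  · rw [Finset.disjoint_left]
    intro h
    simp only [mem_filter, mem_univ, true_and, mem_union]
    rintro ((h1 | h1) | h1) h2
    · exact h2.2.2.1.2 (Or.inl h1.2.2.2)
    · exact h2.2.2.1.2 (Or.inr h1.2.2.2)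
    · exact h2.2.2.2 h1.2.2.2
  · rw [Finset.disjoint_left]
    intro h
    simp only [mem_filter, mem_univ, true_and, mem_union]
    rintro (h1 | h1) h2
    · exact h2.2.2.1.2 (Or.inl h1.2.2.2)
    · exact h2.2.2.1.2 (Or.inr h1.2.2.2)
  · rw [Finset.disjoint_left]
    intro h
    simp only [mem_filter, mem_univ, true_and]
    intro h1 h2
    exact not_OW h1.2.2.2 h2.2.2.2

theorem colour_lemma (hn : Even n) :
    (univ.filter (fun h : K.H => K.ln h = i ∧ isB K h ∧ tc K (op K h) = c)).card +
    (univ.filter (fun h : K.H => K.ln h = i ∧ isS K h ∧ tc K h = c ∧ isW K h)).card ≤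
    (univ.filter (fun h : K.H => K.ln h = i ∧ tc K h = c ∧ PE K h ∧ ¬ PE K (K.rv h))).card := by
  have h1 := even_A K i c
  have h2 := even_O K i c
  have h3 := even_PP K i c
  have h4 := even_B K i c
  have h5 := card_W_le K i c hn
  have h6 := split_A K i c
  have h7 : (univ.filter (fun h : K.H => K.ln h = i ∧ isB K h ∧ tc K (op K h) = c)).card ≤
    (univ.filter (fun h : K.H => K.ln h = i ∧ tc K h = c ∧ PE K h ∧ ¬ PE K (K.rv h))).card := by
    apply Finset.card_le_card_of_injOn (op K)
    · intro a ha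
      simp only [coe_filter, mem_univ, true_and, Set.mem_ofPred_eq] at ha ⊢
      have ho := ha.2.1.2.2.1
      exact ⟨by rw [ln_op]; exact ha.1, ha.2.2, PE_op ha.2.1.1 ho.1, fun hP => hP.2 ho.2.2⟩
    · intro a _ b _ e
      rw [← op_op K a, ← op_op K b]
      exact congrArg (op K) e
  rw [h6] at h1
  obtain ⟨x1, h1⟩ := h1
  obtain ⟨x2, h2⟩ := h2
  obtain ⟨x3, h3⟩ := h3
  obtain ⟨x4, h4⟩ := h4
  omega

theorem card_split (p : K.H → Prop) [DecidablePred p] (f : K.H → Bool) :
    (univ.filter (fun h : K.H => p h)).card =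
      (univ.filter (fun h : K.H => p h ∧ f h = true)).card +
      (univ.filter (fun h : K.H => p h ∧ f h = false)).card := by
  rw [← Finset.card_union_of_disjoint]
  · congr 1
    ext h
    simp only [mem_filter, mem_univ, true_and, mem_union]
    cases f h <;> simp
  · rw [Finset.disjoint_left]
    intro h
    simp only [mem_filter, mem_univ, true_and]
    intro h1 h2
    rw [h1.2] at h2
    exact absurd h2.2 (by simp)

/-- **Line lemma**. -/
theorem line_lemma (hn : Even n) :
    (univ.filter (fun h : K.H => K.ln h = i ∧ isB K h)).card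
      + (univ.filter (fun h : K.H => K.ln h = i ∧ isW K h ∧ K.rv h = h)).card
      ≤ (univ.filter (fun h : K.H => K.ln h = i ∧ PE K h ∧ ¬ PE K (K.rv h))).card := by
  have h1 := colour_lemma K i true hn
  have h2 := colour_lemma K i false hn
  have h3 := card_split K (fun h => K.ln h = i ∧ isB K h) (fun h => tc K (op K h))
  have h4 := card_split K (fun h => K.ln h = i ∧ PE K h ∧ ¬ PE K (K.rv h)) (fun h => tc K h)
  have h5 := card_split K (fun h => K.ln h = i ∧ isS K h ∧ isW K h) (fun h => tc K h)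
  have h6 : (univ.filter (fun h : K.H => K.ln h = i ∧ isW K h ∧ K.rv h = h)).card ≤
      (univ.filter (fun h : K.H => K.ln h = i ∧ isS K h ∧ isW K h)).card := by
    apply Finset.card_le_card_of_injOn (op K)
    · intro a ha
      simp only [coe_filter, mem_univ, true_and, Set.mem_ofPred_eq] at ha ⊢
      exact ⟨by rw [ln_op]; exact ha.1, isS_op_of_ray ha.2.1 ha.2.2, isW_op ha.2.1⟩
    · intro a _ b _ e
      rw [← op_op K a, ← op_op K b]
      exact congrArg (op K) e
  have e1 : ∀ b : Bool, (univ.filter (fun h : K.H => (K.ln h = i ∧ isB K h) ∧ tc K (op K h) = b)) =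
      (univ.filter (fun h : K.H => K.ln h = i ∧ isB K h ∧ tc K (op K h) = b)) := by
    intro b; ext h; simp only [mem_filter, mem_univ, true_and, and_assoc]
  have e2 : ∀ b : Bool, (univ.filter (fun h : K.H =>
      (K.ln h = i ∧ PE K h ∧ ¬ PE K (K.rv h)) ∧ tc K h = b)) =
      (univ.filter (fun h : K.H => K.ln h = i ∧ tc K h = b ∧ PE K h ∧ ¬ PE K (K.rv h))) := by
    intro b; ext h; simp only [mem_filter, mem_univ, true_and]; tauto
  have e3 : ∀ b : Bool, (univ.filter (fun h : K.H =>
      (K.ln h = i ∧ isS K h ∧ isW K h) ∧ tc K h = b)) =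
      (univ.filter (fun h : K.H => K.ln h = i ∧ isS K h ∧ tc K h = b ∧ isW K h)) := by
    intro b; ext h; simp only [mem_filter, mem_univ, true_and]; tauto
  rw [e1, e1] at h3
  rw [e2, e2] at h4
  rw [e3, e3] at h5
  omega

theorem card_fiber (p : K.H → Prop) [DecidablePred p] :
    (univ.filter (fun h : K.H => p h)).card =
      ∑ i : Fin n, (univ.filter (fun h : K.H => K.ln h = i ∧ p h)).card := by
  have := Finset.card_eq_sum_card_fiberwise (s := univ.filter (fun h : K.H => p h))
    (t := (univ : Finset (Fin n))) (f := K.ln) (fun _ _ => mem_univ _)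
  rw [this]
  refine Finset.sum_congr rfl (fun i _ => ?_)
  congr 1
  ext h
  simp only [mem_filter, mem_univ, true_and]
  tauto

/-- **Line lemma**, summed over all lines. -/
theorem line_sum_lemma (hn : Even n) :
    (univ.filter (fun h : K.H => isB K h)).card
      + (univ.filter (fun h : K.H => isW K h ∧ K.rv h = h)).card
      ≤ (univ.filter (fun h : K.H => PE K h ∧ ¬ PE K (K.rv h))).card := by
  rw [card_fiber K (fun h => isB K h), card_fiber K (fun h => isW K h ∧ K.rv h = h),
    card_fiber K (fun h => PE K h ∧ ¬ PE K (K.rv h)), ← Finset.sum_add_distrib]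
  exact Finset.sum_le_sum (fun i _ => line_lemma K i hn)

end cls

end Pool.Agent.Helper77.KBL
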