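import Pool.Agent.Helper77.KBL.Line
import Pool.Agent.Helper23.KB.Api

/-!
# The line lemma in the notation of `KB.Api`
-/

namespace Pool.Agent.Helper77.KBL

open Pool.Agent.Helper23.KB Finset

variable {n : ℕ} (K : KM n)

theorem r_eq (o : Bool) (h : K.H) : r K o h = K.r o h := rfl
theorem tr_eq (o : Bool) (h : K.H) : tr K o h = K.tr o h := rfl
theorem op_eq (h : K.H) : op K h = K.op h := rfl

theorem isS_iff (h : K.H) : isS K h ↔ K.Sg h = true := by
  unfold isS KM.Sg
  rw [tr_eq, tr_eq]
  cases K.tr true h <;> cases K.tr false h <;> simp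

theorem tc_eq (h : K.H) : tc K h = K.cs h := by
  unfold tc KM.cs
  rw [K.col_symm]
  cases K.tri h <;> cases K.col h <;> rfl

theorem isO_iff (h : K.H) : isO K h ↔ K.TO h = true := by
  unfold isO KM.TO
  simp only [Bool.and_eq_true, decide_eq_true_eq, beq_iff_eq, bne_iff_ne]
  constructor
  · rintro ⟨h1, h2, h3, h4⟩
    have h5 : K.op h = K.nx (K.nx h) := op2 h1
    rw [h5]
    refine ⟨⟨⟨h1, h4.symm⟩, ?_⟩, h2.symm⟩
    revert h2 h3
    cases K.tri h <;> cases K.tri (K.nx h) <;> cases K.tri (K.nx.symm h) <;> simp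
  · rintro ⟨⟨⟨h1, h2⟩, h3⟩, h4⟩
    have h5 : K.op h = K.nx (K.nx h) := op2 h1
    rw [h5] at h2
    exact ⟨h1, h4.symm, by rw [← h3]; exact h4.symm, h2.symm⟩

theorem wed_iff {g : K.H} (hm : K.m g = 2) : wed K g ↔ K.wg g = true := by
  unfold wed KM.wg
  have h5 : K.op g = K.nx (K.nx g) := op2 hm
  rw [h5, nx3 hm]
  simp only [Bool.and_eq_true, decide_eq_true_eq]
  tauto

theorem isW_iff (h : K.H) : isW K h ↔ K.TW h = true := by
  by_cases hm : K.m h = 2
  · unfold isW KM.TW
    rw [wed_iff K hm, wed_iff K (by rw [K.m_nx]; exact hm), wed_iff K (by rw [K.m_nx, K.m_nx]; exact hm),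
      wed_iff K (by rw [m_symm]; exact hm)]
    have h5 : K.op h = K.nx (K.nx h) := op2 hm
    rw [h5]
    simp only [Bool.and_eq_true, Bool.or_eq_true, decide_eq_true_eq, hm, true_and]
    tauto
  · constructor
    · intro hW; exact absurd (isW_m hW) hm
    · intro hW
      unfold KM.TW at hW
      simp [hm] at hW

theorem costly_iff (h : K.H) : costly K h ↔ K.cost h = true := by
  unfold costly KM.cost
  rw [isO_iff, isW_iff, Bool.or_eq_true]

theorem PE_iff (h : K.H) : PE K h ↔ K.PE h = true := by
  unfold PE KM.PE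
  rw [isS_iff, costly_iff]
  simp

theorem outw_iff (h : K.H) : outw K h ↔ K.outc h = true := by
  unfold outw KM.outc
  rw [isS_iff, costly_iff, tc_eq, tc_eq, op_eq]
  simp only [Bool.and_eq_true, bne_iff_ne]
  tauto

theorem isB_iff (h : K.H) : isB K h ↔ K.Bo h = true := by
  unfold isB KM.Bo KM.Pi1
  rw [PE_iff, PE_iff, outw_iff, outw_iff]
  simp only [Bool.and_eq_true]
  tauto

theorem wr_iff (h : K.H) : (isW K h ∧ K.rv h = h) ↔ K.wr h = true := by
  unfold KM.wr
  rw [isW_iff]
  simp only [Bool.and_eq_true, decide_eq_true_eq]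
  tauto

/-- **Line lemma**, notation of `KB.Api`. -/
theorem line_api (hn : Even n) :
    (univ.filter (fun h : K.H => K.Bo h = true)).card
      + (univ.filter (fun h : K.H => K.wr h = true)).card
      + (univ.filter (fun h : K.H => K.Pi1 h = true)).card
      ≤ (univ.filter (fun h : K.H => K.PE h = true)).card := by
  classical
  have h1 := line_sum_lemma K hn
  have e1 : (univ.filter (fun h : K.H => isB K h)) = (univ.filter (fun h : K.H => K.Bo h = true)) := by
    ext h; simp only [mem_filter, mem_univ, true_and]; exact isB_iff K h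
  have e2 : (univ.filter (fun h : K.H => isW K h ∧ K.rv h = h)) =
      (univ.filter (fun h : K.H => K.wr h = true)) := by
    ext h; simp only [mem_filter, mem_univ, true_and]; exact wr_iff K h
  have e3 : (univ.filter (fun h : K.H => K.PE h = true)).card =
      (univ.filter (fun h : K.H => PE K h ∧ ¬ PE K (K.rv h))).card +
      (univ.filter (fun h : K.H => K.Pi1 h = true)).card := by
    rw [← Finset.card_union_of_disjoint]
    · congr 1
      ext h
      simp only [mem_filter, mem_univ, true_and, mem_union, PE_iff, KM.Pi1, Bool.and_eq_true]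
      tauto
    · rw [Finset.disjoint_left]
      intro h
      simp only [mem_filter, mem_univ, true_and, PE_iff, KM.Pi1, Bool.and_eq_true]
      tauto
  have e1' := congrArg Finset.card e1
  have e2' := congrArg Finset.card e2
  have h1' : (univ.filter (fun h : K.H => isB K h)).card
      + (univ.filter (fun h : K.H => isW K h ∧ K.rv h = h)).card
      ≤ (univ.filter (fun h : K.H => PE K h ∧ ¬ PE K (K.rv h))).card := by
    convert h1 using 1
  omega

end Pool.Agent.Helper77.KBL
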