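import Pool.Agent.Helper77.KBL.Sums

/-!
# Inequalities between sums, checked orbit by orbit
-/

namespace Pool.Agent.Helper77.KBL

open Pool.Agent.Helper23.KB Finset

variable {n : ℕ} (K : KM n)

theorem sum_iter (k : ℕ) (f : K.H → ℤ) : ∑ h, f (K.nx^[k] h) = ∑ h, f h := by
  induction k with
  | zero => rfl
  | succ k ih =>
    rw [← ih]
    have := Equiv.sum_comp K.nx (fun h => f (K.nx^[k] h))
    rw [← this]
    rfl

/-- if `f ≤ g` in sum over every vertex of multiplicity `m0`, then in total -/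
theorem orbit_le (m0 : ℕ) (hm0 : 0 < m0) (f g : K.H → ℤ)
    (hfg : ∀ x, K.m x = m0 → ∑ k ∈ range (2 * m0), f (K.nx^[k] x) ≤
      ∑ k ∈ range (2 * m0), g (K.nx^[k] x)) :
    ∑ x with K.m x = m0, f x ≤ ∑ x with K.m x = m0, g x := by
  have key : ∀ e : K.H → ℤ, ∑ x with K.m x = m0, ∑ k ∈ range (2 * m0), e (K.nx^[k] x) =
      (2 * m0 : ℕ) * ∑ x with K.m x = m0, e x := by
    intro e
    rw [Finset.sum_comm]
    have h1 : ∀ k ∈ range (2 * m0), ∑ x with K.m x = m0, e (K.nx^[k] x) =
        ∑ x with K.m x = m0, e x := by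
      intro k _
      rw [Finset.sum_filter, Finset.sum_filter]
      have := sum_iter K k (fun x => if K.m x = m0 then e x else 0)
      rw [← this]
      refine Finset.sum_congr rfl (fun x _ => ?_)
      rw [K.m_iter]
    rw [Finset.sum_congr rfl h1]
    simp
  have h2 : ∑ x with K.m x = m0, ∑ k ∈ range (2 * m0), f (K.nx^[k] x) ≤
      ∑ x with K.m x = m0, ∑ k ∈ range (2 * m0), g (K.nx^[k] x) := by
    refine Finset.sum_le_sum (fun x hx => ?_)
    simp only [mem_filter, mem_univ, true_and] at hx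
    exact hfg x hx
  rw [key, key] at h2
  have h3 : (0 : ℤ) < ((2 * m0 : ℕ) : ℤ) := by positivity
  exact le_of_mul_le_mul_left h2 h3

end Pool.Agent.Helper77.KBL
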