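import Pool.Agent.Helper77.KBL.TIm

/-!
# Vertices of type S4: geometry
-/

namespace Pool.Agent.Helper77.KBL

open Pool.Agent.Helper23.KB Finset

variable {n : ℕ} {K : KM n}

/-- going round a triangle at a simple vertex -/
theorem third_true {k : K.H} (ht : K.tri k = true) :
    K.rv (K.nx.symm (K.rv k)) = K.nx (K.rv (K.nx k)) := K.third (o := true) ht

theorem third_false {k : K.H} (ht : K.tri (K.nx.symm k) = true) :
    K.rv (K.nx (K.rv k)) = K.nx.symm (K.rv (K.nx.symm k)) := K.third (o := false) ht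

/-- **opposite outer edges of an S4 with triple neighbours are not both double** -/
theorem outer_opp {k : K.H} (hm : K.m k = 2) (d0 : K.Dd k = true) (d1 : K.Dd (K.nx k) = true)
    (d2 : K.Dd (K.nx (K.nx k)) = true) (d3 : K.Dd (K.nx.symm k) = true)
    (m0 : K.m (K.rv k) = 3) (m1 : K.m (K.rv (K.nx k)) = 3) (m2 : K.m (K.rv (K.nx (K.nx k))) = 3)
    (m3 : K.m (K.rv (K.nx.symm k)) = 3)
    (e0 : K.Dd (K.nx.symm (K.rv k)) = true)
    (e2 : K.Dd (K.nx.symm (K.rv (K.nx (K.nx k)))) = true) : False := by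
  set q0 := K.rv k with hq0
  set q1 := K.rv (K.nx k) with hq1
  set q2 := K.rv (K.nx (K.nx k)) with hq2
  set q3 := K.rv (K.nx.symm k) with hq3
  have t01 : K.rv (K.nx.symm q0) = K.nx q1 := third_true (K.Dd_tr (o := true) d0)
  have t12 : K.rv (K.nx.symm q1) = K.nx q2 := third_true (K.Dd_tr (o := true) d1)
  have t23 : K.rv (K.nx.symm q2) = K.nx q3 := by
    have := third_true (K := K) (k := K.nx (K.nx k)) (K.Dd_tr (o := true) d2)
    rw [nx3' hm] at this
    exact this
  have t30 : K.rv (K.nx.symm q3) = K.nx q0 := by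
    have := third_true (K := K) (k := K.nx.symm k) (K.Dd_tr (o := true) d3)
    rw [Equiv.apply_symm_apply] at this
    exact this
  -- the four half-edges to the apexes `Y`, `Y'`
  have o0 : K.nx.symm (K.nx.symm q0) = K.op (K.nx q0) := by
    have := K.r3 (o := false) (h := K.nx q0) (by rw [K.m_nx]; exact m0)
    simp only [KM.r_false, Equiv.symm_apply_apply] at this
    exact this
  have o1 : K.nx (K.nx q1) = K.op (K.nx.symm q1) := by
    have := K.r3 (o := true) (h := K.nx.symm q1) (by rw [K.m_symm]; exact m1)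
    simp only [KM.r_true, Equiv.apply_symm_apply] at this
    exact this
  have o2 : K.nx.symm (K.nx.symm q2) = K.op (K.nx q2) := by
    have := K.r3 (o := false) (h := K.nx q2) (by rw [K.m_nx]; exact m2)
    simp only [KM.r_false, Equiv.symm_apply_apply] at this
    exact this
  have o3 : K.nx (K.nx q3) = K.op (K.nx.symm q3) := by
    have := K.r3 (o := true) (h := K.nx.symm q3) (by rw [K.m_symm]; exact m3)
    simp only [KM.r_true, Equiv.apply_symm_apply] at this
    exact this
  -- the outer triangles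
  have y0 : K.rv (K.nx (K.nx q1)) = K.nx.symm (K.rv (K.nx.symm (K.nx.symm q0))) := by
    have := third_false (K := K) (k := K.nx.symm q0) (K.Dd_tr (o := false) e0)
    rw [t01] at this
    exact this
  have y2 : K.rv (K.nx (K.nx q3)) = K.nx.symm (K.rv (K.nx.symm (K.nx.symm q2))) := by
    have := third_false (K := K) (k := K.nx.symm q2) (K.Dd_tr (o := false) e2)
    rw [t23] at this
    exact this
  rw [o0, o1] at y0
  rw [o2, o3] at y2
  -- `P` = line of `nx q0` = line of `nx.symm q3`; `Q` = line of `nx.symm q1` = line of `nx q2`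
  have lP : K.ln (K.nx q0) = K.ln (K.nx.symm q3) := by rw [← t30, K.ln_rv]
  have lQ : K.ln (K.nx q2) = K.ln (K.nx.symm q1) := by rw [← t12, K.ln_rv]
  have hv := K.meet (K.rv (K.op (K.nx q0))) (K.rv (K.op (K.nx.symm q1)))
    (K.rv (K.op (K.nx.symm q3))) (K.rv (K.op (K.nx q2)))
    (by rw [y0, K.vt_symm]) (by rw [y2, K.vt_symm])
    (by rw [K.ln_rv, K.ln_rv, K.ln_op', K.ln_op', lP])
    (by rw [K.ln_rv, K.ln_rv, K.ln_op', K.ln_op', lQ])
    (by
      rw [y0]
      exact (ln_r_ne false _).symm)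
  -- positions on `P`
  have n0 : K.rv (K.nx q0) ≠ K.nx q0 := by
    have : K.tri (K.nx.symm (K.nx q0)) = true := by
      rw [Equiv.symm_apply_apply]
      have := K.tr_rv (K.Dd_tr (o := false) d0)
      exact this
    exact K.tr_ray (o := false) this
  have n0' : K.rv (K.op (K.nx q0)) ≠ K.op (K.nx q0) := by
    rw [← o0]
    have h1 : K.tri (K.nx.symm (K.nx.symm q0)) = true := K.Dd_tr (o := false) e0
    exact K.tr_ray (o := true) h1
  have n3' : K.rv (K.op (K.nx.symm q3)) ≠ K.op (K.nx.symm q3) := by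
    rw [← o3]
    have h1 : K.tri (K.nx q3) = true := by
      rw [← t23]
      have := K.tr_rv (K.Dd_tr (o := false) e2)
      exact this
    refine K.tr_ray (o := false) (h := K.nx (K.nx q3)) ?_
    show K.tri (K.nx.symm (K.nx (K.nx q3))) = true
    rw [Equiv.symm_apply_apply]; exact h1
  have s3 : K.nx.symm q3 = K.rv (K.nx q0) := by rw [← t30, K.rv_rv]
  have hp := K.ps_vt _ _ (by rw [K.ln_rv, K.ln_rv, K.ln_op', K.ln_op', lP]) hv
  rw [K.ps_rv _ n0', K.ps_rv _ n3', K.ps_op, K.ps_op, K.dr_op', K.dr_op', s3, K.ps_rv _ n0,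
    K.dr_rv _ n0] at hp
  cases hd : K.dr (K.nx q0) <;> rw [hd] at hp <;> simp at hp <;> omega

end Pool.Agent.Helper77.KBL
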