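import Pool.Agent.Helper23.KB.Api

/-!
# Global sums over the half-edges
-/

namespace Pool.Agent.Helper77.KBL

open Pool.Agent.Helper23.KB Finset

variable {n : ℕ} (K : KM n)

theorem sum_fiber (f : K.H → ℤ) :
    ∑ h, f h = ∑ i : Fin n, ∑ d : Bool, ∑ h with (K.ln h = i ∧ K.dr h = d), f h := by
  classical
  have h1 : ∑ h, f h = ∑ p : Fin n × Bool, ∑ h with ((K.ln h, K.dr h) = p), f h := by
    rw [Finset.sum_fiberwise]
  rw [h1, Fintype.sum_prod_type]
  refine Finset.sum_congr rfl (fun i _ => Finset.sum_congr rfl (fun d _ => ?_))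
  refine Finset.sum_congr ?_ (fun _ _ => rfl)
  ext h
  simp [Prod.ext_iff]

/-- the total multiplicity -/
theorem sum_m : ∑ h : K.H, ((K.m h : ℤ) - 1) = 2 * n * (n - 1) := by
  rw [sum_fiber]
  simp_rw [K.line_sum]
  simp
  ring

/-- the number of rays -/
theorem card_ray : (univ.filter (fun h : K.H => K.rv h = h)).card = 2 * n := by
  classical
  have h0 : ((univ.filter (fun h : K.H => K.rv h = h)).card : ℤ) =
      ∑ h : K.H, (if K.rv h = h then (1 : ℤ) else 0) := by
    rw [Finset.card_filter]; push_cast; rfl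
  have h1 : ∀ (i : Fin n) (d : Bool),
      ∑ h with (K.ln h = i ∧ K.dr h = d), (if K.rv h = h then (1 : ℤ) else 0) = 1 := by
    intro i d
    obtain ⟨h, hh, hu⟩ := K.ray i d
    rw [Finset.sum_eq_single_of_mem h]
    · rw [if_pos hh.2.2]
    · simp [hh.1, hh.2.1]
    · intro b hb hne
      rw [if_neg]
      intro hr
      simp only [mem_filter, mem_univ, true_and] at hb
      exact hne (hu b ⟨hb.1, hb.2, hr⟩)
  have h2 : ((univ.filter (fun h : K.H => K.rv h = h)).card : ℤ) = 2 * n := by
    rw [h0, sum_fiber]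
    simp_rw [h1]
    simp
    ring
  exact_mod_cast h2

/-- a sum over all half-edges is invariant under rotation -/
theorem sum_r (o : Bool) (f : K.H → ℤ) : ∑ h, f (K.r o h) = ∑ h, f h := by
  have := Equiv.sum_comp (K.rE o) f
  simpa using this

theorem sum_rv (f : K.H → ℤ) : ∑ h, f (K.rv h) = ∑ h, f h := by
  have := Equiv.sum_comp K.rvE f
  simpa using this

theorem sum_op (f : K.H → ℤ) : ∑ h, f (K.op h) = ∑ h, f h := by
  have := Equiv.sum_comp K.opE f
  simpa using this

/-- number of marked sides -/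
def ts (h : K.H) : ℤ := (if K.tr true h then 1 else 0) + (if K.tr false h then 1 else 0)

/-- the weight of a half-edge -/
def w (h : K.H) : ℤ := 3 * ((K.m h : ℤ) - 1) - 3 * ts K h

theorem sum_ts : ∑ h, ts K h = 2 * ((univ.filter (fun h : K.H => K.tri h = true)).card : ℤ) := by
  unfold ts
  rw [Finset.sum_add_distrib]
  have h1 : ∑ h : K.H, (if K.tr false h = true then (1 : ℤ) else 0) =
      ∑ h : K.H, (if K.tr true h = true then (1 : ℤ) else 0) := by
    have := sum_r K false (fun h => if K.tr true h = true then (1 : ℤ) else 0)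
    rw [← this]
    refine Finset.sum_congr rfl (fun h _ => ?_)
    have e : K.tr true (K.r false h) = K.tr false h := rfl
    rw [e]
  have h2 : ∑ h : K.H, (if K.tr true h = true then (1 : ℤ) else 0) =
      ((univ.filter (fun h : K.H => K.tri h = true)).card : ℤ) := by
    rw [Finset.card_filter]; push_cast
    exact Finset.sum_congr rfl (fun h _ => rfl)
  rw [h1, h2]
  ring

theorem sum_w : ∑ h, w K h = 6 * n * (n - 1) -
    6 * ((univ.filter (fun h : K.H => K.tri h = true)).card : ℤ) := by
  unfold w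
  rw [Finset.sum_sub_distrib, ← Finset.mul_sum, ← Finset.mul_sum, sum_m, sum_ts]
  ring

/-- the bound is equivalent to `∑ w ≥ 4 * #rays = 8 n` -/
theorem bound_of_sum_w (h : 4 * ((univ.filter (fun h : K.H => K.rv h = h)).card : ℤ) ≤ ∑ h, w K h)
    (hn : 4 ≤ n) :
    3 * (univ.filter (fun h : K.H => K.tri h = true)).card ≤ n * (3 * n - 7) := by
  rw [card_ray, sum_w] at h
  have h7 : 7 ≤ 3 * n := by omega
  zify [h7]
  push_cast at h ⊢
  nlinarith

end Pool.Agent.Helper77.KBL
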